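import Mathlib
import Pool.Agent.Lib.MP_ca0fc2_an.TQ.W1
import Pool.Agent.Lib.MP_ca0fc2_an.CGInv

/-! Weights of sets: automorphisms. -/

set_option autoImplicit false
set_option linter.unusedSectionVars false

open Metric Set MeasureTheory Filter Topology
open scoped InnerProductSpace ENNReal ContDiff

namespace Pool.Agent.MPca0fc2.TQ

open Pool.Agent.MPca0fc2.TK
open Pool.Agent.MPca0fc2.PT (HH)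
open Pool.Agent.Lib.MP_ca0fc2_an

variable {E : Type*} [NormedAddCommGroup E] [InnerProductSpace ℂ E]

/-- the square of `cosh` of the distance -/
noncomputable def chh (z w : E) : ℝ := ‖1 - ⟪z, w⟫_ℂ‖ ^ 2 / ((1 - ‖z‖ ^ 2) * (1 - ‖w‖ ^ 2))

/-- weights of the set `M` -/
structure Wt (a C : ℝ) (M : Set E) (V : E → ℂ) : Prop where
  holo : DifferentiableOn ℂ V (ball 0 1)
  sec : ∀ z ∈ ball (0 : E) 1, ‖V z‖ ≤ 2 * (V z).re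
  up : ∀ z ∈ ball (0 : E) 1, ‖V z‖ ≤ C * (1 - ‖z‖ ^ 2) ^ (-a)
  osc : ∀ x ∈ ball (0 : E) 1, ∀ y ∈ ball (0 : E) 1, ‖V x‖ ≤ C * ‖V y‖ *
    (‖1 - ⟪x, y⟫_ℂ‖ / (1 - ‖x‖ ^ 2))
  lo : ∀ w ∈ M, ∀ z ∈ ball (0 : E) 1, 1 ≤ C * ‖V z‖ * (chh z w * (1 - ‖z‖ ^ 2)) ^ a

theorem dsymm (x y : E) : ‖1 - ⟪x, y⟫_ℂ‖ = ‖1 - ⟪y, x⟫_ℂ‖ := by
  rw [← Complex.norm_conj, map_sub, map_one, inner_conj_symm]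

theorem dlo {x y : E} (hx : ‖x‖ < 1) (hy : ‖y‖ < 1) : (1 - ‖x‖ ^ 2) / 2 ≤ ‖1 - ⟪x, y⟫_ℂ‖ ∧
    0 < ‖1 - ⟪x, y⟫_ℂ‖ := by
  have h1 : ‖⟪x, y⟫_ℂ‖ ≤ ‖x‖ * ‖y‖ := norm_inner_le_norm x y
  have h2 := norm_sub_norm_le (1 : ℂ) ⟪x, y⟫_ℂ
  rw [norm_one] at h2
  have h3 : ‖x‖ * ‖y‖ ≤ ‖x‖ := mul_le_of_le_one_right (norm_nonneg _) hy.le
  constructor
  · nlinarith [norm_nonneg x]
  · linarith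

theorem aut_facts [FiniteDimensional ℂ E] [MeasurableSpace E] [BorelSpace E] {φ ψ : E → E}
    (h : IsBallAut φ ψ) {x y : E} (hx : ‖x‖ < 1) (hy : ‖y‖ < 1) :
    1 - ‖ψ x‖ ^ 2 = (1 - ‖x‖ ^ 2) * (1 - ‖φ 0‖ ^ 2) / ‖1 - ⟪φ 0, x⟫_ℂ‖ ^ 2 ∧
    ‖1 - ⟪ψ x, ψ y⟫_ℂ‖ = (1 - ‖φ 0‖ ^ 2) * ‖1 - ⟪x, y⟫_ℂ‖ /
      (‖1 - ⟪φ 0, x⟫_ℂ‖ * ‖1 - ⟪φ 0, y⟫_ℂ‖) := by
  have ha : ‖φ 0‖ < 1 := mem_ball_zero_iff.1 (h.map 0 (mem_ball_self one_pos))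
  have hψx : ‖ψ x‖ < 1 := mem_ball_zero_iff.1 (h.map' x (mem_ball_zero_iff.2 hx))
  have hψy : ‖ψ y‖ < 1 := mem_ball_zero_iff.1 (h.map' y (mem_ball_zero_iff.2 hy))
  have key : ∀ u : E, ‖u‖ < 1 → 1 - ‖ψ u‖ ^ 2 =
      (1 - ‖u‖ ^ 2) * (1 - ‖φ 0‖ ^ 2) / ‖1 - ⟪φ 0, u⟫_ℂ‖ ^ 2 := by
    intro u hu
    have hψu : ‖ψ u‖ < 1 := mem_ball_zero_iff.1 (h.map' u (mem_ball_zero_iff.2 hu))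
    have h1 := CG.HH_aut h hψu (z := 0) (by simp)
    rw [h.right u (mem_ball_zero_iff.2 hu)] at h1
    unfold HH at h1
    rw [dsymm] at h1
    rw [h1]
    simp
  refine ⟨key x hx, ?_⟩
  have h1 := CG.HH_aut h hψx hψy
  rw [h.right x (mem_ball_zero_iff.2 hx), h.right y (mem_ball_zero_iff.2 hy)] at h1
  unfold HH at h1
  rw [key x hx, key y hy] at h1
  have px := (dlo ha hx).2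
  have py := (dlo ha hy).2
  have pd := (dlo hx hy).2
  have pd' := (dlo hψx hψy).2
  have nx : 0 < 1 - ‖x‖ ^ 2 := by nlinarith [norm_nonneg x]
  have ny : 0 < 1 - ‖y‖ ^ 2 := by nlinarith [norm_nonneg y]
  have na : 0 < 1 - ‖φ 0‖ ^ 2 := by nlinarith [norm_nonneg (φ 0)]
  obtain ⟨A, hA⟩ : ∃ A, A = ‖1 - ⟪φ 0, x⟫_ℂ‖ := ⟨_, rfl⟩
  obtain ⟨B, hB⟩ : ∃ B, B = ‖1 - ⟪φ 0, y⟫_ℂ‖ := ⟨_, rfl⟩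
  obtain ⟨D, hD⟩ : ∃ D, D = ‖1 - ⟪x, y⟫_ℂ‖ := ⟨_, rfl⟩
  obtain ⟨D', hD'⟩ : ∃ D', D' = ‖1 - ⟪ψ x, ψ y⟫_ℂ‖ := ⟨_, rfl⟩
  obtain ⟨N, hN⟩ : ∃ N, N = 1 - ‖φ 0‖ ^ 2 := ⟨_, rfl⟩
  obtain ⟨nx', hnx⟩ : ∃ t, t = 1 - ‖x‖ ^ 2 := ⟨_, rfl⟩
  obtain ⟨ny', hny⟩ : ∃ t, t = 1 - ‖y‖ ^ 2 := ⟨_, rfl⟩
  rw [← hA, ← hB, ← hD, ← hD', ← hN, ← hnx, ← hny] at h1
  rw [← hA] at px ⊢
  rw [← hB] at py ⊢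
  rw [← hD] at pd ⊢
  rw [← hD'] at pd' ⊢
  rw [← hN] at na ⊢
  rw [← hnx] at nx
  rw [← hny] at ny
  have h2 : D' ^ 2 = (N * D / (A * B)) ^ 2 := by
    field_simp at h1 ⊢
    nlinarith [h1]
  have h3 : 0 ≤ N * D / (A * B) := by positivity
  exact (pow_left_inj₀ pd'.le h3 two_ne_zero).1 h2

end Pool.Agent.MPca0fc2.TQ
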