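import Mathlib
import Pool.Agent.Lib.MP_ca0fc2_an.TQ.W2

/-! Weights of sets: construction. -/

set_option autoImplicit false
set_option linter.unusedSectionVars false

open Metric Set MeasureTheory Filter Topology
open scoped InnerProductSpace ENNReal ContDiff

namespace Pool.Agent.MPca0fc2.TQ

open Pool.Agent.MPca0fc2.TK
open Pool.Agent.MPca0fc2.PT (HH)
open Pool.Agent.Lib.MP_ca0fc2_an

variable {E : Type*} [NormedAddCommGroup E] [InnerProductSpace ℂ E]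

/-- `|log (1 - <b, z>)|` has imaginary part at most `π/2` -/
private theorem W3_re {b z : E} (hb : ‖b‖ < 1) (hz : ‖z‖ < 1) : 0 < (1 - ⟪b, z⟫_ℂ).re := by
  have h1 : ‖⟪b, z⟫_ℂ‖ ≤ ‖b‖ * ‖z‖ := norm_inner_le_norm b z
  have h3 : ‖b‖ * ‖z‖ ≤ ‖b‖ := mul_le_of_le_one_right (norm_nonneg _) hz.le
  have h4 := Complex.re_le_norm ⟪b, z⟫_ℂ
  rw [Complex.sub_re, Complex.one_re]
  linarith

/-- comparison of the powers: `T₂ ≤ K X² T₁` gives `T₁^(-a) ≤ 2 K^a T₂^(-a) X` -/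
private theorem W3_pow {a K X T₁ T₂ : ℝ} (ha : 0 < a) (ha2 : a ≤ 1 / 2) (hK : 0 < K)
    (hX : 1 / 2 ≤ X) (h1 : 0 < T₁) (h2 : 0 < T₂) (h : T₂ ≤ K * X ^ 2 * T₁) :
    T₁ ^ (-a) ≤ 2 * K ^ a * T₂ ^ (-a) * X := by
  have hX0 : 0 < X := by linarith
  have e1 : T₂ ^ a ≤ K ^ a * (X ^ 2) ^ a * T₁ ^ a := by
    rw [← Real.mul_rpow hK.le (by positivity), ← Real.mul_rpow (by positivity) h1.le]
    exact Real.rpow_le_rpow h2.le h ha.le
  have e2 : (X ^ 2) ^ a ≤ 2 * X := by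
    have f1 : (X ^ 2) ^ a = X ^ (2 * a) := by
      rw [← Real.rpow_natCast, ← Real.rpow_mul hX0.le]
      norm_num
    have f2 : X ^ (2 * a) ≤ (2 * X) ^ (2 * a) :=
      Real.rpow_le_rpow hX0.le (by linarith) (by linarith)
    have f3 : (2 * X) ^ (2 * a) ≤ (2 * X) ^ (1 : ℝ) :=
      Real.rpow_le_rpow_of_exponent_le (by linarith) (by linarith)
    rw [Real.rpow_one] at f3
    rw [f1]
    exact f2.trans f3
  rw [Real.rpow_neg h1.le, Real.rpow_neg h2.le]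
  have p1 : 0 < T₁ ^ a := Real.rpow_pos_of_pos h1 a
  have p2 : 0 < T₂ ^ a := Real.rpow_pos_of_pos h2 a
  have p3 : 0 < K ^ a := Real.rpow_pos_of_pos hK a
  rw [show 2 * K ^ a * (T₂ ^ a)⁻¹ * X = (K ^ a * (2 * X)) / T₂ ^ a by ring,
    le_div_iff₀ p2, inv_mul_le_iff₀ p1]
  calc T₂ ^ a ≤ K ^ a * (X ^ 2) ^ a * T₁ ^ a := e1
    _ ≤ K ^ a * (2 * X) * T₁ ^ a := by gcongr
    _ = _ := by ring

variable [FiniteDimensional ℂ E] [MeasurableSpace E] [BorelSpace E]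

/-- The weight of the image of `M₀`. -/
theorem wt_of_la {a B c C C' : ℝ} (ha : 0 < a) (ha8 : a ≤ 1 / 8)
    (haB : a * (B + Real.pi) ≤ Real.pi / 3) (hc : 0 < c) (hC : 0 < C) (hC' : 0 < C') :
    ∃ C'' : ℝ, 0 < C'' ∧ ∀ l : E → ℂ, LA B c C l → ∀ φ ψ : E → E, IsBallAut φ ψ →
      ∀ M₀ : Set E, M₀ ⊆ ball 0 1 →
      (∀ w ∈ M₀, ∀ z ∈ ball (0 : E) 1, ‖Complex.exp (l z)‖ ≤ C' * ‖1 - ⟪w, z⟫_ℂ‖) →
      ∃ V : E → ℂ, Wt a C'' (φ '' M₀) V := by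
  obtain ⟨K, hK⟩ : ∃ K : ℝ, K = C * (64 + 8 / c) := ⟨_, rfl⟩
  have hK0 : 0 < K := by rw [hK]; positivity
  refine ⟨c ^ (-a) + 2 * K ^ a + (8 * C') ^ a, by positivity, fun l hl φ ψ hφ M₀ hM₀ hM => ?_⟩
  have hb : ‖φ 0‖ < 1 := mem_ball_zero_iff.1 (hφ.map 0 (mem_ball_self one_pos))
  obtain ⟨b, hbd⟩ : ∃ b, b = φ 0 := ⟨_, rfl⟩
  rw [← hbd] at hb
  have hN : 0 < 1 - ‖b‖ ^ 2 := by nlinarith [norm_nonneg b]
  obtain ⟨N, hNd⟩ : ∃ N, N = 1 - ‖b‖ ^ 2 := ⟨_, rfl⟩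
  rw [← hNd] at hN
  obtain ⟨L, hL⟩ : ∃ L : E → ℂ, L = fun z => ((a * Real.log N : ℝ) : ℂ) -
    ((2 * a : ℝ) : ℂ) * Complex.log (1 - ⟪b, z⟫_ℂ) - (a : ℂ) * l (ψ z) := ⟨_, rfl⟩
  have hLh : DifferentiableOn ℂ L (ball 0 1) := by
    rw [hL]
    have h1 : DifferentiableOn ℂ (fun z => Complex.log (1 - ⟪b, z⟫_ℂ)) (ball (0 : E) 1) := by
      have h2 : DifferentiableOn ℂ (fun z => 1 - ⟪b, z⟫_ℂ) (ball (0 : E) 1) :=
        ((differentiable_const _).sub (innerSL ℂ b).differentiable).differentiableOn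
      exact h2.clog fun z hz => Or.inl (W3_re hb (mem_ball_zero_iff.1 hz))
    have h3 : DifferentiableOn ℂ (fun z => l (ψ z)) (ball (0 : E) 1) :=
      hl.holo.comp hφ.hol' fun z hz => hφ.map' z hz
    exact ((differentiableOn_const _).sub (h1.const_mul _)).sub (h3.const_mul _)
  have hLim : ∀ z ∈ ball (0 : E) 1, |(L z).im| ≤ Real.pi / 3 := by
    intro z hz
    have h1 := W3_re hb (mem_ball_zero_iff.1 hz)
    have h2 : |(Complex.log (1 - ⟪b, z⟫_ℂ)).im| ≤ Real.pi / 2 := by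
      rw [Complex.log_im]
      exact (Complex.abs_arg_lt_pi_div_two_iff.2 (Or.inl h1)).le
    have h3 := hl.im (ψ z) (hφ.map' z hz)
    have h4 : (L z).im = -(2 * a) * (Complex.log (1 - ⟪b, z⟫_ℂ)).im - a * (l (ψ z)).im := by
      rw [hL]
      simp only [Complex.sub_im, Complex.ofReal_im, Complex.im_ofReal_mul]
      ring
    rw [h4]
    calc |-(2 * a) * (Complex.log (1 - ⟪b, z⟫_ℂ)).im - a * (l (ψ z)).im|
        ≤ |-(2 * a) * (Complex.log (1 - ⟪b, z⟫_ℂ)).im| + |a * (l (ψ z)).im| := abs_sub _ _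
      _ = 2 * a * |(Complex.log (1 - ⟪b, z⟫_ℂ)).im| + a * |(l (ψ z)).im| := by
          rw [abs_mul, abs_mul, abs_neg, abs_of_pos (by positivity : (0 : ℝ) < 2 * a), abs_of_pos ha]
      _ ≤ 2 * a * (Real.pi / 2) + a * B := by gcongr
      _ = a * (B + Real.pi) := by ring
      _ ≤ Real.pi / 3 := haB
  -- the size
  obtain ⟨T, hT⟩ : ∃ T : E → ℝ, T = fun z => ‖1 - ⟪b, z⟫_ℂ‖ ^ 2 * ‖Complex.exp (l (ψ z))‖ / N :=
    ⟨_, rfl⟩
  have hp : ∀ z ∈ ball (0 : E) 1, 0 < ‖1 - ⟪b, z⟫_ℂ‖ := fun z hz => (dlo hb (mem_ball_zero_iff.1 hz)).2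
  have hT0 : ∀ z ∈ ball (0 : E) 1, 0 < T z := by
    intro z hz
    rw [hT]
    have h1 := hp z hz
    have h2 : 0 < ‖Complex.exp (l (ψ z))‖ := norm_pos_iff.2 (Complex.exp_ne_zero _)
    positivity
  have hVT : ∀ z ∈ ball (0 : E) 1, ‖Complex.exp (L z)‖ = T z ^ (-a) := by
    intro z hz
    rw [Complex.norm_exp, Real.rpow_def_of_pos (hT0 z hz)]
    congr 1
    have h1 := hp z hz
    have h2 : 0 < ‖Complex.exp (l (ψ z))‖ := norm_pos_iff.2 (Complex.exp_ne_zero _)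
    have h3 : Real.log (T z) = 2 * Real.log ‖1 - ⟪b, z⟫_ℂ‖ + (l (ψ z)).re - Real.log N := by
      rw [hT]
      simp only
      rw [Real.log_div (by positivity) hN.ne', Real.log_mul (by positivity) h2.ne', Real.log_pow,
        Complex.norm_exp, Real.log_exp]
      push_cast
      ring
    rw [h3, hL]
    simp only [Complex.sub_re, Complex.ofReal_re, Complex.re_ofReal_mul, Complex.log_re]
    ring
  -- the estimates of `T`
  have hTlo : ∀ z ∈ ball (0 : E) 1, c * (1 - ‖z‖ ^ 2) ≤ T z := by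
    intro z hz
    have hz1 := mem_ball_zero_iff.1 hz
    have h1 := hl.adm.lo (ψ z) (hφ.map' z hz)
    have h2 := (aut_facts hφ hz1 hz1).1
    rw [← hbd, ← hNd] at h2
    rw [h2] at h1
    have h3 := hp z hz
    rw [hT]
    simp only
    rw [le_div_iff₀ hN]
    calc c * (1 - ‖z‖ ^ 2) * N = ‖1 - ⟪b, z⟫_ℂ‖ ^ 2 *
          (c * ((1 - ‖z‖ ^ 2) * N / ‖1 - ⟪b, z⟫_ℂ‖ ^ 2)) := by field_simp
      _ ≤ _ := mul_le_mul_of_nonneg_left h1 (by positivity)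
  have hTosc : ∀ x ∈ ball (0 : E) 1, ∀ y ∈ ball (0 : E) 1,
      T y ≤ K * (‖1 - ⟪x, y⟫_ℂ‖ / (1 - ‖x‖ ^ 2)) ^ 2 * T x := by
    intro x hx y hy
    have hx1 := mem_ball_zero_iff.1 hx
    have hy1 := mem_ball_zero_iff.1 hy
    have nx : 0 < 1 - ‖x‖ ^ 2 := by nlinarith [norm_nonneg x]
    have h1 := hl.adm.tri (ψ y) (hφ.map' y hy) (ψ x) (hφ.map' x hx)
    have h2 := (aut_facts hφ hx1 hy1).2
    rw [← hbd, ← hNd] at h2
    rw [h2] at h1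
    have px := hp x hx
    have py := hp y hy
    have hxlo := (dlo (x := x) (y := b) hx1 hb).1
    rw [dsymm] at hxlo
    have hD := (dlo hx1 hy1).1
    have hq : ‖1 - ⟪b, y⟫_ℂ‖ ≤ 2 * (‖1 - ⟪b, x⟫_ℂ‖ + ‖1 - ⟪x, y⟫_ℂ‖) := qtri hb.le hx1.le hy1.le
    have hTl := hTlo x hx
    have hT0x := hT0 x hx
    have hTx : ‖Complex.exp (l (ψ x))‖ = T x * N / ‖1 - ⟪b, x⟫_ℂ‖ ^ 2 := by
      rw [hT]
      field_simp
    have hTy : T y = ‖1 - ⟪b, y⟫_ℂ‖ ^ 2 * ‖Complex.exp (l (ψ y))‖ / N := by rw [hT]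
    rw [hTx] at h1
    rw [hTy]
    clear hTx hTy
    obtain ⟨p, hpd⟩ : ∃ p, p = ‖1 - ⟪b, x⟫_ℂ‖ := ⟨_, rfl⟩
    obtain ⟨q, hqd⟩ : ∃ q, q = ‖1 - ⟪b, y⟫_ℂ‖ := ⟨_, rfl⟩
    obtain ⟨D, hDd⟩ : ∃ D, D = ‖1 - ⟪x, y⟫_ℂ‖ := ⟨_, rfl⟩
    obtain ⟨e, hed⟩ : ∃ e, e = ‖Complex.exp (l (ψ y))‖ := ⟨_, rfl⟩
    obtain ⟨m, hmd⟩ : ∃ m, m = 1 - ‖x‖ ^ 2 := ⟨_, rfl⟩
    obtain ⟨t, htd⟩ : ∃ t, t = T x := ⟨_, rfl⟩
    rw [← hpd, ← hqd, ← hDd, ← hed, ← htd] at h1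
    rw [← hpd] at px hxlo hq
    rw [← hqd] at py hq
    rw [← hDd] at hD hq
    rw [← hmd] at nx hxlo hD hTl
    rw [← htd] at hTl hT0x
    rw [← hqd, ← hed, ← hDd, ← hmd, ← htd]
    obtain ⟨X, hX⟩ : ∃ X, X = D / m := ⟨_, rfl⟩
    have hDX : D = X * m := by rw [hX]; field_simp
    have hX2 : 1 / 2 ≤ X := by rw [hX, le_div_iff₀ nx]; linarith
    rw [← hX]
    -- `q ≤ 8 X p`
    have hqp : q ≤ 8 * X * p := by
      have e1 : D ≤ 2 * X * p := by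
        rw [hDX]
        have : m ≤ 2 * p := by linarith
        nlinarith
      have e2 : p ≤ 2 * X * p := by nlinarith
      linarith
    have hDt : D ≤ X * t / c := by
      rw [le_div_iff₀ hc, hDX]
      have : c * m ≤ t := hTl
      nlinarith
    have hX0 : 0 < X := by linarith
    have hD0 : 0 ≤ D := by linarith
    calc q ^ 2 * e / N ≤ q ^ 2 * (C * (t * N / p ^ 2 + N * D / (p * q))) / N := by gcongr
      _ = C * (q ^ 2 * t / p ^ 2 + q * D / p) := by field_simp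
      _ ≤ C * ((8 * X * p) ^ 2 * t / p ^ 2 + (8 * X * p) * (X * t / c) / p) := by gcongr
      _ = K * X ^ 2 * t := by
          rw [hK]
          field_simp
          ring
  have hTup : ∀ w ∈ M₀, ∀ z ∈ ball (0 : E) 1, T z ≤ 8 * C' * (chh z (φ w) * (1 - ‖z‖ ^ 2)) := by
    intro w hw z hz
    have hz1 := mem_ball_zero_iff.1 hz
    have hwb := hM₀ hw
    have hφw := hφ.map w hwb
    have hφw1 := mem_ball_zero_iff.1 hφw
    have h1 := hM w hw (ψ z) (hφ.map' z hz)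
    have h2 := (aut_facts hφ hφw1 hz1).2
    rw [hφ.left w hwb, ← hbd, ← hNd] at h2
    rw [h2] at h1
    have pz := hp z hz
    have pw := hp (φ w) hφw
    have nz : 0 < 1 - ‖z‖ ^ 2 := by nlinarith [norm_nonneg z]
    have nw : 0 < 1 - ‖φ w‖ ^ 2 := by nlinarith [norm_nonneg (φ w)]
    have hwlo := (dlo (x := φ w) (y := b) hφw1 hb).1
    rw [dsymm] at hwlo
    have hD := (dlo hφw1 hz1).1
    have hD0 := (dlo hφw1 hz1).2
    have hq : ‖1 - ⟪b, z⟫_ℂ‖ ≤ 2 * (‖1 - ⟪b, φ w⟫_ℂ‖ + ‖1 - ⟪φ w, z⟫_ℂ‖) :=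
      qtri hb.le hφw1.le hz1.le
    rw [hT]
    simp only
    unfold chh
    rw [dsymm z (φ w)]
    obtain ⟨p, hpd⟩ : ∃ p, p = ‖1 - ⟪b, φ w⟫_ℂ‖ := ⟨_, rfl⟩
    obtain ⟨q, hqd⟩ : ∃ q, q = ‖1 - ⟪b, z⟫_ℂ‖ := ⟨_, rfl⟩
    obtain ⟨D, hDd⟩ : ∃ D, D = ‖1 - ⟪φ w, z⟫_ℂ‖ := ⟨_, rfl⟩
    obtain ⟨m, hmd⟩ : ∃ m, m = 1 - ‖φ w‖ ^ 2 := ⟨_, rfl⟩
    obtain ⟨n, hnd⟩ : ∃ n, n = 1 - ‖z‖ ^ 2 := ⟨_, rfl⟩
    rw [← hpd, ← hqd, ← hDd] at h1
    rw [← hqd] at pz hq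
    rw [← hpd] at pw hq hwlo
    rw [← hDd] at hD hq hD0
    rw [← hmd] at nw hwlo hD
    rw [← hnd] at nz
    rw [← hqd, ← hDd, ← hmd, ← hnd]
    have hqm : q * m ≤ 8 * D * p := by
      have e1 : m ≤ 2 * D := by linarith
      have e2 : m ≤ 2 * p := by linarith
      nlinarith
    calc q ^ 2 * ‖Complex.exp (l (ψ z))‖ / N ≤ q ^ 2 * (C' * (N * D / (p * q))) / N := by gcongr
      _ = C' * (D * q / p) := by field_simp
      _ ≤ C' * (8 * (D ^ 2 / m)) := by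
          refine mul_le_mul_of_nonneg_left ?_ hC'.le
          rw [← mul_div_assoc, div_le_div_iff₀ pw nw]
          nlinarith
      _ = 8 * C' * (D ^ 2 / (n * m) * n) := by field_simp
  -- the weight
  refine ⟨fun z => Complex.exp (L z), hLh.cexp, ?_, ?_, ?_, ?_⟩
  · intro z hz
    show ‖Complex.exp (L z)‖ ≤ 2 * (Complex.exp (L z)).re
    rw [Complex.norm_exp, Complex.exp_re]
    have h1 : 1 / 2 ≤ Real.cos (L z).im := by
      rw [← Real.cos_abs, ← Real.cos_pi_div_three]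
      exact Real.cos_le_cos_of_nonneg_of_le_pi (abs_nonneg _) (by linarith [Real.pi_pos]) (hLim z hz)
    nlinarith [Real.exp_pos (L z).re]
  · intro z hz
    show ‖Complex.exp (L z)‖ ≤ _
    have hz1 := mem_ball_zero_iff.1 hz
    have nz : 0 < 1 - ‖z‖ ^ 2 := by nlinarith [norm_nonneg z]
    rw [hVT z hz]
    calc T z ^ (-a) ≤ (c * (1 - ‖z‖ ^ 2)) ^ (-a) :=
          Real.rpow_le_rpow_of_nonpos (by positivity) (hTlo z hz) (by linarith)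
      _ = c ^ (-a) * (1 - ‖z‖ ^ 2) ^ (-a) := Real.mul_rpow hc.le nz.le
      _ ≤ _ := by
          refine mul_le_mul_of_nonneg_right ?_ (Real.rpow_nonneg nz.le _)
          have h1 : 0 < K ^ a := Real.rpow_pos_of_pos hK0 _
          have h2 : 0 < (8 * C') ^ a := Real.rpow_pos_of_pos (by positivity) _
          linarith
  · intro x hx y hy
    show ‖Complex.exp (L x)‖ ≤ _ * ‖Complex.exp (L y)‖ * _
    have hx1 := mem_ball_zero_iff.1 hx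
    have hy1 := mem_ball_zero_iff.1 hy
    have nx : 0 < 1 - ‖x‖ ^ 2 := by nlinarith [norm_nonneg x]
    have hD := dlo hx1 hy1
    rw [hVT x hx, hVT y hy]
    have hX2 : 1 / 2 ≤ ‖1 - ⟪x, y⟫_ℂ‖ / (1 - ‖x‖ ^ 2) := by
      rw [le_div_iff₀ nx]
      linarith [hD.1]
    have h1 := W3_pow ha (by linarith) hK0 hX2 (hT0 x hx) (hT0 y hy) (hTosc x hx y hy)
    refine h1.trans ?_
    have h2 : 0 < T y ^ (-a) := Real.rpow_pos_of_pos (hT0 y hy) _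
    have h3 : 0 < c ^ (-a) := Real.rpow_pos_of_pos hc _
    have h4 : 0 < (8 * C') ^ a := Real.rpow_pos_of_pos (by positivity) _
    have h5 : 0 ≤ ‖1 - ⟪x, y⟫_ℂ‖ / (1 - ‖x‖ ^ 2) := by positivity
    refine mul_le_mul_of_nonneg_right (mul_le_mul_of_nonneg_right ?_ h2.le) h5
    linarith
  · rintro _ ⟨w, hw, rfl⟩ z hz
    show 1 ≤ _ * ‖Complex.exp (L z)‖ * _
    have hz1 := mem_ball_zero_iff.1 hz
    have nz : 0 < 1 - ‖z‖ ^ 2 := by nlinarith [norm_nonneg z]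
    rw [hVT z hz]
    have h1 := hTup w hw z hz
    have hT0z := hT0 z hz
    have hpos : 0 < chh z (φ w) * (1 - ‖z‖ ^ 2) := by
      by_contra hcon
      have : 8 * C' * (chh z (φ w) * (1 - ‖z‖ ^ 2)) ≤ 0 :=
        mul_nonpos_of_nonneg_of_nonpos (by positivity) (not_lt.1 hcon)
      linarith
    have h2 : T z ^ a ≤ (8 * C') ^ a * (chh z (φ w) * (1 - ‖z‖ ^ 2)) ^ a := by
      rw [← Real.mul_rpow (by positivity) hpos.le]
      exact Real.rpow_le_rpow hT0z.le h1 ha.le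
    have h3 : 0 < T z ^ a := Real.rpow_pos_of_pos hT0z _
    have h4 : 0 < c ^ (-a) := Real.rpow_pos_of_pos hc _
    have h5 : 0 < K ^ a := Real.rpow_pos_of_pos hK0 _
    have h6 : 0 < (chh z (φ w) * (1 - ‖z‖ ^ 2)) ^ a := Real.rpow_pos_of_pos hpos _
    have h7 : 0 < (8 * C') ^ a := Real.rpow_pos_of_pos (by positivity) _
    rw [Real.rpow_neg hT0z.le]
    calc (1 : ℝ) = T z ^ a * (T z ^ a)⁻¹ := by field_simp
      _ ≤ ((8 * C') ^ a * (chh z (φ w) * (1 - ‖z‖ ^ 2)) ^ a) * (T z ^ a)⁻¹ := by gcongr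
      _ ≤ ((c ^ (-a) + 2 * K ^ a + (8 * C') ^ a) * (chh z (φ w) * (1 - ‖z‖ ^ 2)) ^ a) *
          (T z ^ a)⁻¹ := by
          gcongr
          linarith
      _ = _ := by ring

end Pool.Agent.MPca0fc2.TQ
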