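import Mathlib
import Pool.Agent.Lib.MP_ca0fc2_an.TQ.W2
import Pool.Agent.Lib.MP_ca0fc2_an.VK.Defs

/-! Sums of weights. -/

set_option autoImplicit false
set_option linter.unusedSectionVars false

open Metric Set MeasureTheory Filter Topology
open scoped InnerProductSpace ENNReal ContDiff

namespace Pool.Agent.MPca0fc2.TQ

open Pool.Agent.MPca0fc2.VK (VW)

variable {E : Type*} [NormedAddCommGroup E] [InnerProductSpace ℂ E]

private theorem W4_cauchy {f : E → ℂ} {z : E} {R M : ℝ} (hR : 0 < R)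
    (hf : DifferentiableOn ℂ f (ball z R)) (hM : ∀ w ∈ ball z R, ‖f w‖ ≤ M) :
    ‖fderiv ℂ f z‖ ≤ M / (R / 2) := by
  have hM0 : 0 ≤ M := le_trans (norm_nonneg _) (hM z (mem_ball_self hR))
  refine ContinuousLinearMap.opNorm_le_bound _ (by positivity) fun v => ?_
  by_cases hv : v = 0
  · subst hv
    simp
  have hv0 : 0 < ‖v‖ := norm_pos_iff.2 hv
  set ρ : ℝ := R / (2 * ‖v‖) with hρ
  have hρ0 : 0 < ρ := by positivity
  have hmaps : ∀ t : ℂ, ‖t‖ ≤ ρ → z + t • v ∈ ball z R := by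
    intro t ht
    rw [mem_ball, dist_eq_norm, add_sub_cancel_left, norm_smul]
    calc ‖t‖ * ‖v‖ ≤ ρ * ‖v‖ := by gcongr
      _ = R / 2 := by rw [hρ]; field_simp
      _ < R := by linarith
  have hlin : ∀ t : ℂ, HasDerivAt (fun t : ℂ => z + t • v) v t := by
    intro t
    simpa using ((hasDerivAt_id t).smul_const v).const_add z
  have hfd : ∀ t : ℂ, ‖t‖ ≤ ρ → HasDerivAt (fun t : ℂ => f (z + t • v))
      (fderiv ℂ f (z + t • v) v) t := by
    intro t ht
    have h1 : HasFDerivAt f (fderiv ℂ f (z + t • v)) (z + t • v) :=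
      ((hf _ (hmaps t ht)).differentiableAt (isOpen_ball.mem_nhds (hmaps t ht))).hasFDerivAt
    exact h1.comp_hasDerivAt t (hlin t)
  have hd : DiffContOnCl ℂ (fun t : ℂ => f (z + t • v)) (ball 0 ρ) := by
    apply DifferentiableOn.diffContOnCl
    rw [closure_ball _ hρ0.ne']
    intro t ht
    exact (hfd t (by simpa using ht)).differentiableAt.differentiableWithinAt
  have h2 := Complex.norm_deriv_le_of_forall_mem_sphere_norm_le hρ0 hd (C := M) (by
    intro t ht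
    exact hM _ (hmaps t (by simpa using (mem_sphere.1 ht).le)))
  have h3 : deriv (fun t : ℂ => f (z + t • v)) 0 = fderiv ℂ f z v := by
    have := (hfd 0 (by simpa using hρ0.le)).deriv
    simpa using this
  rw [h3] at h2
  calc ‖fderiv ℂ f z v‖ ≤ M / ρ := h2
    _ = M / (R / 2) * ‖v‖ := by rw [hρ]; field_simp

/-- locally uniformly summable series of holomorphic functions -/
private theorem W4_tsum {f : ℕ → E → ℂ} {U : Set E} (hU : IsOpen U)
    (hf : ∀ k, DifferentiableOn ℂ (f k) U)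
    (hb : ∀ z ∈ U, ∃ R > 0, ball z R ⊆ U ∧ ∃ u : ℕ → ℝ, Summable u ∧ ∀ k, ∀ w ∈ ball z R, ‖f k w‖ ≤ u k) :
    DifferentiableOn ℂ (fun z => ∑' k, f k z) U := by
  intro z hz
  obtain ⟨R, hR, hsub, u, hu, hfu⟩ := hb z hz
  have hR2 : 0 < R / 2 := by positivity
  have hball : ∀ w ∈ ball z (R / 2), ball w (R / 2) ⊆ ball z R := by
    intro w hw y hy
    rw [mem_ball] at *
    calc dist y z ≤ dist y w + dist w z := dist_triangle _ _ _
      _ < R / 2 + R / 2 := by linarith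
      _ = R := by ring
  have h1 : HasFDerivAt (fun y => ∑' n, f n y) (∑' n, fderiv ℂ (f n) z) z := by
    refine hasFDerivAt_tsum_of_isPreconnected (𝕜 := ℂ) (u := fun k => u k / (R / 2 / 2))
      (s := ball z (R / 2)) (x₀ := z) (hu.div_const _) isOpen_ball
      (convex_ball z (R / 2)).isPreconnected ?_ ?_ (mem_ball_self hR2) ?_ (mem_ball_self hR2)
    · intro n x hx
      have hxU : x ∈ U := hsub (hball x hx (mem_ball_self hR2))
      exact ((hf n x hxU).differentiableAt (hU.mem_nhds hxU)).hasFDerivAt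
    · intro n x hx
      exact W4_cauchy hR2 ((hf n).mono ((hball x hx).trans hsub))
        (fun w hw => hfu n w (hball x hx hw))
    · exact Summable.of_norm_bounded hu fun k => hfu k z (mem_ball_self hR)
  exact h1.differentiableAt.differentiableWithinAt


/-- the coefficients -/
noncomputable def wc (k : ℕ) : ℝ := 1 / ((k : ℝ) + 1) ^ 2

theorem wc_pos (k : ℕ) : 0 < wc k := by
  unfold wc
  positivity

theorem wc_sum : Summable wc := by
  have h1 : Summable fun n : ℕ => 1 / (n : ℝ) ^ 2 := Real.summable_one_div_nat_pow.2 one_lt_two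
  have h2 := (summable_nat_add_iff 1).2 h1
  refine h2.congr fun k => ?_
  unfold wc
  push_cast
  ring

/-- the sum of the absolute values -/
noncomputable def SS (V : ℕ → E → ℂ) (z : E) : ℝ := ∑' k, wc k * ‖V k z‖

/-- the sum -/
noncomputable def FS (V : ℕ → E → ℂ) (z : E) : ℂ := 1 + ∑' k, (wc k : ℂ) * V k z

variable {a C : ℝ} {M : ℕ → Set E} {V : ℕ → E → ℂ}

theorem ss_sum (h : ∀ k, Wt a C (M k) (V k)) {z : E} (hz : z ∈ ball (0 : E) 1) :
    Summable fun k => wc k * ‖V k z‖ := by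
  refine Summable.of_nonneg_of_le (fun k => mul_nonneg (wc_pos k).le (norm_nonneg _))
    (fun k => mul_le_mul_of_nonneg_left ((h k).up z hz) (wc_pos k).le) ?_
  exact wc_sum.mul_right _

theorem ss_nonneg (V : ℕ → E → ℂ) (z : E) : 0 ≤ SS V z :=
  tsum_nonneg fun k => mul_nonneg (wc_pos k).le (norm_nonneg _)

theorem ss_ge (h : ∀ k, Wt a C (M k) (V k)) {z : E} (hz : z ∈ ball (0 : E) 1) (k : ℕ) :
    wc k * ‖V k z‖ ≤ SS V z :=
  (ss_sum h hz).le_tsum k fun i _ => mul_nonneg (wc_pos i).le (norm_nonneg _)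

theorem ss_up (h : ∀ k, Wt a C (M k) (V k)) {z : E} (hz : z ∈ ball (0 : E) 1) :
    SS V z ≤ (∑' k, wc k) * (C * (1 - ‖z‖ ^ 2) ^ (-a)) := by
  rw [← tsum_mul_right]
  exact (ss_sum h hz).tsum_le_tsum
    (fun k => mul_le_mul_of_nonneg_left ((h k).up z hz) (wc_pos k).le) (wc_sum.mul_right _)

theorem ss_osc (h : ∀ k, Wt a C (M k) (V k)) {x y : E} (hx : x ∈ ball (0 : E) 1)
    (hy : y ∈ ball (0 : E) 1) :
    SS V x ≤ C * (‖1 - ⟪x, y⟫_ℂ‖ / (1 - ‖x‖ ^ 2)) * SS V y := by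
  unfold SS
  rw [← tsum_mul_left]
  refine (ss_sum h hx).tsum_le_tsum (fun k => ?_) ((ss_sum h hy).mul_left _)
  calc wc k * ‖V k x‖ ≤ wc k * (C * ‖V k y‖ * (‖1 - ⟪x, y⟫_ℂ‖ / (1 - ‖x‖ ^ 2))) :=
        mul_le_mul_of_nonneg_left ((h k).osc x hx y hy) (wc_pos k).le
    _ = _ := by ring

theorem fs_norm (h : ∀ k, Wt a C (M k) (V k)) {z : E} (hz : z ∈ ball (0 : E) 1) :
    (1 + SS V z) / 2 ≤ ‖FS V z‖ ∧ ‖FS V z‖ ≤ 1 + SS V z := by
  have h1 := ss_sum h hz
  have h2 : ∀ k, ‖(wc k : ℂ) * V k z‖ = wc k * ‖V k z‖ := fun k => by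
    rw [norm_mul, Complex.norm_real, Real.norm_of_nonneg (wc_pos k).le]
  have h3 : Summable fun k => (wc k : ℂ) * V k z := by
    refine Summable.of_norm ?_
    simp only [h2]
    exact h1
  constructor
  · have h4 : (FS V z).re = 1 + ∑' k, wc k * (V k z).re := by
      unfold FS
      rw [Complex.add_re, Complex.one_re, Complex.re_tsum h3]
      congr 1
      refine tsum_congr fun k => ?_
      rw [Complex.re_ofReal_mul]
    have h5 : Summable fun k => wc k * (V k z).re := by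
      have := Complex.hasSum_re h3.hasSum
      refine this.summable.congr fun k => ?_
      rw [Complex.re_ofReal_mul]
    have h6 : SS V z / 2 ≤ ∑' k, wc k * (V k z).re := by
      unfold SS
      rw [← tsum_div_const]
      refine (h1.div_const 2).tsum_le_tsum (fun k => ?_) h5
      have := mul_le_mul_of_nonneg_left ((h k).sec z hz) (wc_pos k).le
      linarith
    refine le_trans ?_ (Complex.re_le_norm _)
    rw [h4]
    linarith
  · unfold FS
    refine (norm_add_le _ _).trans ?_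
    rw [norm_one]
    refine add_le_add le_rfl ((norm_tsum_le_tsum_norm ?_).trans (le_of_eq ?_))
    · simp only [h2]
      exact h1
    · unfold SS
      exact tsum_congr h2

theorem fs_holo (ha : 0 < a) (hC : 0 < C) (h : ∀ k, Wt a C (M k) (V k)) :
    DifferentiableOn ℂ (FS V) (ball 0 1) := by
  unfold FS
  refine (differentiableOn_const _).add ?_
  refine W4_tsum isOpen_ball (fun k => (h k).holo.const_mul _) fun z hz => ?_
  have hz1 : ‖z‖ < 1 := by simpa using hz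
  obtain ⟨ρ, hρ⟩ : ∃ ρ : ℝ, ρ = (1 - ‖z‖) / 2 := ⟨_, rfl⟩
  have hρ0 : 0 < ρ := by rw [hρ]; linarith
  have hw : ∀ w ∈ ball z ρ, ‖w‖ < 1 - ρ := by
    intro w hw
    rw [mem_ball, dist_eq_norm] at hw
    have h1 : ‖w‖ ≤ ‖w - z‖ + ‖z‖ := by
      have := norm_add_le (w - z) z
      rwa [sub_add_cancel] at this
    rw [hρ] at hw ⊢
    linarith
  have hwb : ∀ w ∈ ball z ρ, w ∈ ball (0 : E) 1 := by
    intro w hw'
    have := hw w hw'
    simp only [mem_ball, dist_zero_right]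
    linarith
  refine ⟨ρ, hρ0, fun w hw' => hwb w hw', fun k => wc k * (C * ρ ^ (-a)), wc_sum.mul_right _,
    fun k w hw' => ?_⟩
  have hwn := hw w hw'
  rw [norm_mul, Complex.norm_real, Real.norm_of_nonneg (wc_pos k).le]
  refine mul_le_mul_of_nonneg_left (((h k).up w (hwb w hw')).trans ?_) (wc_pos k).le
  refine mul_le_mul_of_nonneg_left ?_ hC.le
  refine Real.rpow_le_rpow_of_nonpos hρ0 ?_ (by linarith)
  nlinarith [norm_nonneg w]

/-- the weight -/
theorem fs_vw (ha : 0 < a) (hC : 0 < C) {Λ : ℝ} (hΛ : 0 < Λ) (h : ∀ k, Wt a C (M k) (V k)) :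
    VW 1 (4 * (2 + C)) (fun z => Λ * ‖FS V z‖) := by
  refine ⟨?_, ?_, ?_⟩
  · exact continuousOn_const.mul (fs_holo ha hC h).continuousOn.norm
  · intro z hz
    have h1 := (fs_norm h hz).1
    have h2 := ss_nonneg V z
    have h3 : 0 < ‖FS V z‖ := by linarith
    positivity
  · intro x hx y hy
    have hx1 := mem_ball_zero_iff.1 hx
    have hy1 := mem_ball_zero_iff.1 hy
    have nx : 0 < 1 - ‖x‖ ^ 2 := by nlinarith [norm_nonneg x]
    have ny : 0 < 1 - ‖y‖ ^ 2 := by nlinarith [norm_nonneg y]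
    have hDx := dlo hx1 hy1
    have hDy := dlo hy1 hx1
    rw [dsymm] at hDy
    obtain ⟨X, hX⟩ : ∃ X, X = ‖1 - ⟪x, y⟫_ℂ‖ / (1 - ‖x‖ ^ 2) := ⟨_, rfl⟩
    obtain ⟨Y, hY⟩ : ∃ Y, Y = ‖1 - ⟪x, y⟫_ℂ‖ / (1 - ‖y‖ ^ 2) := ⟨_, rfl⟩
    have hX2 : 1 / 2 ≤ X := by rw [hX, le_div_iff₀ nx]; linarith [hDx.1]
    have hY2 : 1 / 2 ≤ Y := by rw [hY, le_div_iff₀ ny]; linarith [hDy.1]
    have hY3 : 1 / 2 ≤ Y ^ (1 / 8 : ℝ) := by
      calc (1 / 2 : ℝ) = (1 / 2 : ℝ) ^ (1 : ℝ) := (Real.rpow_one _).symm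
        _ ≤ (1 / 2 : ℝ) ^ (1 / 8 : ℝ) :=
            Real.rpow_le_rpow_of_exponent_ge (by norm_num) (by norm_num) (by norm_num)
        _ ≤ Y ^ (1 / 8 : ℝ) := Real.rpow_le_rpow (by norm_num) hY2 (by norm_num)
    have h1 := (fs_norm h hx).2
    have h2 := (fs_norm h hy).1
    have h3 := ss_osc h hx hy
    rw [← hX] at h3
    rw [← hX, ← hY, pow_one]
    have s1 := ss_nonneg V x
    have s2 := ss_nonneg V y
    have h4 : ‖FS V x‖ ≤ (2 + C) * X * (2 * ‖FS V y‖) := by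
      have h5 : 1 + SS V y ≤ 2 * ‖FS V y‖ := by linarith
      have h6 : 1 + SS V x ≤ (2 + C) * X * (1 + SS V y) := by nlinarith
      exact h1.trans (h6.trans (mul_le_mul_of_nonneg_left h5 (by positivity)))
    have h7 : 0 ≤ (2 + C) * X * (2 * ‖FS V y‖) := by positivity
    calc Λ * ‖FS V x‖ ≤ Λ * ((2 + C) * X * (2 * ‖FS V y‖)) := mul_le_mul_of_nonneg_left h4 hΛ.le
      _ ≤ Λ * ((2 + C) * X * (2 * ‖FS V y‖)) * (2 * Y ^ (1 / 8 : ℝ)) :=
          le_mul_of_one_le_right (mul_nonneg hΛ.le h7) (by linarith)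
      _ = _ := by ring

end Pool.Agent.MPca0fc2.TQ
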