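import Mathlib

/-! An integral along a radius. -/

set_option autoImplicit false
set_option linter.unusedSectionVars false

open Metric Set MeasureTheory Filter Topology

namespace Pool.Agent.MPca0fc2.TQ

private theorem W5_den {r t : ℝ} (hr0 : 0 ≤ r) (hr1 : r < 1) (ht : t ∈ Icc (0 : ℝ) 1) :
    0 < 1 - t ^ 2 * r ^ 2 := by
  have h1 : t * r < 1 := by nlinarith [ht.1, ht.2]
  have h2 : 0 ≤ t * r := mul_nonneg ht.1 hr0
  nlinarith

theorem path_log {a A K r : ℝ} (ha : 0 < a) (hA : 0 ≤ A) (hK : 0 ≤ K) (hr0 : 0 ≤ r) (hr1 : r < 1)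
    {R : ℝ → ℝ} (hR : ContinuousOn R (Icc 0 1)) (h1 : ∀ t ∈ Icc (0 : ℝ) 1, R t ≤ K)
    (h2 : ∀ t ∈ Icc (0 : ℝ) 1, R t ≤ K * (A * ((1 - r ^ 2) / (1 - t ^ 2 * r ^ 2)) ^ a)) :
    ∫ t in Icc (0 : ℝ) 1, R t * (r / (1 - t ^ 2 * r ^ 2)) ≤
      K * (2 / a * Real.log (1 + A) + 4 / 3) := by
  have hrr : 0 < 1 - r ^ 2 := by nlinarith
  obtain ⟨u, hu⟩ : ∃ u : ℝ → ℝ, u = fun t => (1 - r ^ 2) / (1 - t ^ 2 * r ^ 2) := ⟨_, rfl⟩
  have hu0 : ∀ t ∈ Icc (0 : ℝ) 1, 0 < u t := fun t ht => by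
    rw [hu]
    exact div_pos hrr (W5_den hr0 hr1 ht)
  obtain ⟨Y, hY⟩ : ∃ Y : ℝ → ℝ, Y = fun t => A * u t ^ a := ⟨_, rfl⟩
  have hY0 : ∀ t ∈ Icc (0 : ℝ) 1, 0 ≤ Y t := fun t ht => by
    rw [hY]
    exact mul_nonneg hA (Real.rpow_nonneg (hu0 t ht).le _)
  obtain ⟨P, hP⟩ : ∃ P : ℝ → ℝ, P = fun t => 2 / a * Real.log (1 + Y t) := ⟨_, rfl⟩
  obtain ⟨P', hP'⟩ : ∃ P' : ℝ → ℝ, P' = fun t =>
    4 * (t * r ^ 2) / (1 - t ^ 2 * r ^ 2) * (Y t / (1 + Y t)) := ⟨_, rfl⟩
  have hder : ∀ t ∈ Icc (0 : ℝ) 1, HasDerivAt P (P' t) t := by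
    intro t ht
    have hd := W5_den hr0 hr1 ht
    have e1 : HasDerivAt (fun t : ℝ => 1 - t ^ 2 * r ^ 2) (-(2 * t * r ^ 2)) t := by
      have := ((hasDerivAt_pow 2 t).mul_const (r ^ 2)).const_sub 1
      simpa using this
    have e2 : HasDerivAt u ((1 - r ^ 2) * (2 * t * r ^ 2) / (1 - t ^ 2 * r ^ 2) ^ 2) t := by
      have := e1.fun_inv hd.ne'
      have h3 := this.const_mul (1 - r ^ 2)
      rw [hu]
      refine (h3.congr_deriv ?_).congr_of_eventuallyEq (Eventually.of_forall fun s => ?_)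
      · field_simp
        try ring
      · show (1 - r ^ 2) / (1 - s ^ 2 * r ^ 2) = _
        rw [div_eq_mul_inv]
    have e3 := (e2.rpow_const (p := a) (Or.inl (hu0 t ht).ne')).const_mul A
    have hpos : 0 < 1 + Y t := by linarith [hY0 t ht]
    have e4 : HasDerivAt (fun t => 1 + Y t) (A * (((1 - r ^ 2) * (2 * t * r ^ 2) /
        (1 - t ^ 2 * r ^ 2) ^ 2) * a * u t ^ (a - 1))) t := by
      rw [hY]
      exact e3.const_add 1
    have e5 := (e4.log hpos.ne').const_mul (2 / a)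
    rw [hP]
    refine e5.congr_deriv ?_
    have e6 : u t ^ a = u t ^ (a - 1) * u t := by
      rw [← Real.rpow_add_one (hu0 t ht).ne']
      congr 1
      ring
    have e7 : u t * (1 - t ^ 2 * r ^ 2) = 1 - r ^ 2 := by
      rw [hu]
      exact div_mul_cancel₀ _ hd.ne'
    have hYt : Y t = A * u t ^ a := by rw [hY]
    rw [hP']
    simp only
    have hpos' : 1 + A * u t ^ a ≠ 0 := by
      rw [← hYt]
      exact hpos.ne'
    rw [hYt, ← e7, e6]
    rw [e6] at hpos'
    field_simp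
    try ring
  have huc : ContinuousOn u (Icc 0 1) := by
    rw [hu]
    exact continuousOn_const.div (by fun_prop) fun t ht => (W5_den hr0 hr1 ht).ne'
  have hYc : ContinuousOn Y (Icc 0 1) := by
    rw [hY]
    exact continuousOn_const.mul (huc.rpow_const fun t ht => Or.inl (hu0 t ht).ne')
  have hP'c : ContinuousOn P' (Icc 0 1) := by
    rw [hP']
    refine ((ContinuousOn.div (by fun_prop) (by fun_prop)
      fun t ht => (W5_den hr0 hr1 ht).ne')).mul (hYc.div (continuousOn_const.add hYc) fun t ht => ?_)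
    have := hY0 t ht
    positivity
  have hint : ∫ t in (0 : ℝ)..1, P' t = P 1 - P 0 := by
    refine intervalIntegral.integral_eq_sub_of_hasDerivAt (fun t ht => ?_) ?_
    · rw [uIcc_of_le zero_le_one] at ht
      exact hder t ht
    · refine ContinuousOn.intervalIntegrable ?_
      rwa [uIcc_of_le zero_le_one]
  have hP1 : P 1 = 2 / a * Real.log (1 + A) := by
    rw [hP, hY, hu]
    simp only [one_pow, one_mul]
    rw [div_self hrr.ne', Real.one_rpow, mul_one]
  have hP0 : 0 ≤ P 0 := by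
    rw [hP]
    have := hY0 0 ⟨le_rfl, zero_le_one⟩
    exact mul_nonneg (by positivity) (Real.log_nonneg (by linarith))
  have hmain : ∀ t ∈ Icc (0 : ℝ) 1, R t * (r / (1 - t ^ 2 * r ^ 2)) ≤ K * (P' t + 4 / 3) := by
    intro t ht
    have hd := W5_den hr0 hr1 ht
    have hq : 0 ≤ r / (1 - t ^ 2 * r ^ 2) := by positivity
    have hY1 := hY0 t ht
    have hYr : R t ≤ K * Y t := by
      have := h2 t ht
      rw [hY, hu]
      exact this
    have hR2 : R t ≤ K * (2 * (Y t / (1 + Y t))) := by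
      rcases le_total (Y t) 1 with h | h
      · refine hYr.trans (mul_le_mul_of_nonneg_left ?_ hK)
        rw [← mul_div_assoc, le_div_iff₀ (by linarith)]
        nlinarith
      · refine (h1 t ht).trans (le_mul_of_one_le_right hK ?_)
        rw [← mul_div_assoc, le_div_iff₀ (by linarith)]
        linarith
    have hP'0 : 0 ≤ P' t := by
      rw [hP']
      have := ht.1
      simp only
      positivity
    rcases le_or_gt (1 / 2) (t * r) with h | h
    · have h3 : r / (1 - t ^ 2 * r ^ 2) ≤ 2 * (t * r ^ 2) / (1 - t ^ 2 * r ^ 2) := by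
        refine div_le_div_of_nonneg_right ?_ hd.le
        nlinarith
      have hYY : 0 ≤ Y t / (1 + Y t) := by positivity
      calc R t * (r / (1 - t ^ 2 * r ^ 2))
          ≤ K * (2 * (Y t / (1 + Y t))) * (r / (1 - t ^ 2 * r ^ 2)) :=
            mul_le_mul_of_nonneg_right hR2 hq
        _ ≤ K * (2 * (Y t / (1 + Y t))) * (2 * (t * r ^ 2) / (1 - t ^ 2 * r ^ 2)) :=
            mul_le_mul_of_nonneg_left h3 (by positivity)
        _ = K * P' t := by
            rw [hP']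
            ring
        _ ≤ K * (P' t + 4 / 3) := mul_le_mul_of_nonneg_left (by linarith) hK
    · have h3 : r / (1 - t ^ 2 * r ^ 2) ≤ 4 / 3 := by
        rw [div_le_iff₀ hd]
        have h4 : (t * r) ^ 2 ≤ 1 / 4 := by
          have : 0 ≤ t * r := mul_nonneg ht.1 hr0
          nlinarith
        nlinarith
      calc R t * (r / (1 - t ^ 2 * r ^ 2)) ≤ K * (r / (1 - t ^ 2 * r ^ 2)) :=
            mul_le_mul_of_nonneg_right (h1 t ht) hq
        _ ≤ K * (4 / 3) := mul_le_mul_of_nonneg_left h3 hK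
        _ ≤ K * (P' t + 4 / 3) := mul_le_mul_of_nonneg_left (by linarith) hK
  have hkc : ContinuousOn (fun t : ℝ => r / (1 - t ^ 2 * r ^ 2)) (Icc 0 1) :=
    continuousOn_const.div (by fun_prop) fun t ht => (W5_den hr0 hr1 ht).ne'
  have hfin : ∫ t in Icc (0 : ℝ) 1, R t * (r / (1 - t ^ 2 * r ^ 2)) ≤
      ∫ t in Icc (0 : ℝ) 1, K * (P' t + 4 / 3) :=
    setIntegral_mono_on (hR.mul hkc).integrableOn_Icc
      (continuousOn_const.mul (hP'c.add continuousOn_const)).integrableOn_Icc measurableSet_Icc hmain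
  refine hfin.trans ?_
  rw [integral_const_mul]
  refine mul_le_mul_of_nonneg_left ?_ hK
  rw [integral_add hP'c.integrableOn_Icc (by
    exact (continuousOn_const (c := (4 / 3 : ℝ))).integrableOn_Icc)]
  rw [integral_Icc_eq_integral_Ioc, ← intervalIntegral.integral_of_le zero_le_one, hint, hP1]
  have hc : ∫ _t in Icc (0 : ℝ) 1, (4 / 3 : ℝ) = 4 / 3 := by
    rw [setIntegral_const]
    simp
  rw [hc]
  linarith

end Pool.Agent.MPca0fc2.TQ
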