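import Mathlib
import Pool.Agent.Lib.MP_ca0fc2_an.TQ.W4
import Pool.Agent.Lib.MP_ca0fc2_an.TQ.W5
import Pool.Agent.Lib.MP_ca0fc2_an.TE.G5
import Pool.Agent.Lib.MP_ca0fc2_an.VK.V6

/-! One solution for a sequence of sets. -/

set_option autoImplicit false
set_option linter.unusedSectionVars false

open Metric Set MeasureTheory Filter Topology
open scoped InnerProductSpace ENNReal ContDiff

namespace Pool.Agent.MPca0fc2.TQ

open Pool.Agent.MPca0fc2.PT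
open Pool.Agent.MPca0fc2.QT
open Pool.Agent.MPca0fc2.TS
open Pool.Agent.MPca0fc2.TE
open Pool.Agent.MPca0fc2.TK
open Pool.Agent.MPca0fc2.VK

variable {E : Type*} [NormedAddCommGroup E] [InnerProductSpace ℂ E] [FiniteDimensional ℂ E]
  [MeasurableSpace E] [BorelSpace E]

theorem chh_one {z w : E} (hz : ‖z‖ < 1) (hw : ‖w‖ < 1) : 1 ≤ chh z w := by
  have h1 : 0 < 1 - ‖z‖ ^ 2 := by nlinarith [norm_nonneg z]
  have h2 : 0 < 1 - ‖w‖ ^ 2 := by nlinarith [norm_nonneg w]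
  unfold chh
  rw [one_le_div (by positivity)]
  have h3 : ‖⟪z, w⟫_ℂ‖ ≤ ‖z‖ * ‖w‖ := norm_inner_le_norm z w
  have h4 : 1 - ‖z‖ * ‖w‖ ≤ ‖1 - ⟪z, w⟫_ℂ‖ := by
    have h5 := norm_sub_norm_le (1 : ℂ) ⟪z, w⟫_ℂ
    rw [norm_one] at h5
    linarith
  have h6 : 0 ≤ 1 - ‖z‖ * ‖w‖ := by nlinarith [norm_nonneg z, norm_nonneg w]
  have h7 : (1 - ‖z‖ * ‖w‖) ^ 2 ≤ ‖1 - ⟪z, w⟫_ℂ‖ ^ 2 := pow_le_pow_left₀ h6 h4 2
  nlinarith [sq_nonneg (‖z‖ - ‖w‖)]

/-- the integral along the radius -/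
private theorem W6_path {a C : ℝ} (ha : 0 < a) (ha1 : a ≤ 1) (hC : 0 < C) {M : ℕ → Set E}
    {V : ℕ → E → ℂ} (h : ∀ k, Wt a C (M k) (V k)) (hM : ∀ k, M k ⊆ ball 0 1) {z : E}
    (hz : z ∈ ball (0 : E) 1) {k : ℕ} {w : E} (hw : w ∈ M k) :
    ‖FS V z‖⁻¹ * GI (fun y => ‖FS V y‖) (0 : E →L[ℂ] E) z ≤
      (2 * (1 + C) + 2 * C * (1 + (∑' k, wc k) * C)) *
        (2 / a * Real.log (1 + chh z w ^ a / wc k) + 4 / 3) := by
  have hz1 := mem_ball_zero_iff.1 hz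
  have hw1 := mem_ball_zero_iff.1 (hM k hw)
  have nz : 0 < 1 - ‖z‖ ^ 2 := by nlinarith [norm_nonneg z]
  have hch := chh_one hz1 hw1
  have hcha : 0 < chh z w ^ a := Real.rpow_pos_of_pos (by linarith) _
  obtain ⟨W, hW⟩ : ∃ W : ℝ, W = ∑' k, wc k := ⟨_, rfl⟩
  have hW0 : 0 ≤ W := by rw [hW]; exact tsum_nonneg fun k => (wc_pos k).le
  rw [← hW]
  have hwk := wc_pos k
  have hrr : rr (0 : E →L[ℂ] E) z = ‖z‖ := by
    unfold rr
    simp
  have hpt : ∀ t : ℝ, pt (0 : E →L[ℂ] E) t z = (t : ℂ) • z := by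
    intro t
    unfold pt
    simp
  have hFz := fs_norm h hz
  have hSz := ss_nonneg V z
  have hFz0 : 0 < ‖FS V z‖ := by linarith [hFz.1]
  have hptn : ∀ t ∈ Icc (0 : ℝ) 1, ‖(t : ℂ) • z‖ ^ 2 = t ^ 2 * ‖z‖ ^ 2 := by
    intro t ht
    rw [norm_smul, Complex.norm_real, Real.norm_of_nonneg ht.1, mul_pow]
  have hptb : ∀ t ∈ Icc (0 : ℝ) 1, (t : ℂ) • z ∈ ball (0 : E) 1 := by
    intro t ht
    rw [mem_ball_zero_iff, norm_smul, Complex.norm_real, Real.norm_of_nonneg ht.1]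
    nlinarith [norm_nonneg z, ht.1, ht.2]
  have hcont : ContinuousOn (fun t : ℝ => ‖FS V z‖⁻¹ * ‖FS V ((t : ℂ) • z)‖) (Icc 0 1) := by
    refine continuousOn_const.mul (ContinuousOn.norm ?_)
    refine (fs_holo ha hC h).continuousOn.comp ?_ fun t ht => hptb t ht
    fun_prop
  have key := path_log (a := a) (A := chh z w ^ a / wc k)
    (K := 2 * (1 + C) + 2 * C * (1 + W * C)) (r := ‖z‖) ha (by positivity) (by positivity)
    (norm_nonneg z) hz1 hcont ?_ ?_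
  · have e : ‖FS V z‖⁻¹ * GI (fun y => ‖FS V y‖) (0 : E →L[ℂ] E) z =
        ∫ t in Icc (0 : ℝ) 1, ‖FS V z‖⁻¹ * ‖FS V ((t : ℂ) • z)‖ * (‖z‖ / (1 - t ^ 2 * ‖z‖ ^ 2)) := by
      unfold GI
      rw [← integral_const_mul]
      refine integral_congr_ae (Eventually.of_forall fun t => ?_)
      simp only [hpt, hrr]
      ring
    rw [e]
    exact key
  · intro t ht
    have hx := hptb t ht
    have hn := hptn t ht
    have nx : 0 < 1 - ‖(t : ℂ) • z‖ ^ 2 := by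
      have := mem_ball_zero_iff.1 hx
      nlinarith [norm_nonneg ((t : ℂ) • z)]
    have hD : ‖1 - ⟪(t : ℂ) • z, z⟫_ℂ‖ = 1 - t * ‖z‖ ^ 2 := by
      rw [inner_smul_left, Complex.conj_ofReal, inner_self_eq_norm_sq_to_K]
      have e1 : (1 : ℂ) - (t : ℂ) * ((‖z‖ : ℂ) ^ 2) = ((1 - t * ‖z‖ ^ 2 : ℝ) : ℂ) := by
        push_cast
        ring
      have e2 : ((RCLike.ofReal ‖z‖ : ℂ)) = (‖z‖ : ℂ) := rfl
      rw [e2, e1, Complex.norm_real, Real.norm_of_nonneg]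
      nlinarith [ht.1, ht.2, norm_nonneg z, sq_nonneg ‖z‖]
    have hX : ‖1 - ⟪(t : ℂ) • z, z⟫_ℂ‖ / (1 - ‖(t : ℂ) • z‖ ^ 2) ≤ 1 := by
      rw [div_le_one nx, hD, hn]
      nlinarith [ht.1, ht.2, sq_nonneg ‖z‖, mul_nonneg ht.1 (sub_nonneg.2 ht.2)]
    have h1 := ss_osc h hx hz
    have h2 := fs_norm h hx
    have h3 : SS V ((t : ℂ) • z) ≤ C * SS V z := by
      refine h1.trans ?_
      have := mul_le_mul_of_nonneg_left hX hC.le
      rw [mul_one] at this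
      exact mul_le_mul_of_nonneg_right this hSz
    show ‖FS V z‖⁻¹ * ‖FS V ((t : ℂ) • z)‖ ≤ _
    rw [inv_mul_le_iff₀ hFz0]
    have h4 : ‖FS V ((t : ℂ) • z)‖ ≤ ‖FS V z‖ * (2 * (1 + C)) := by nlinarith [h2.2, hFz.1]
    refine h4.trans (mul_le_mul_of_nonneg_left ?_ hFz0.le)
    have : 0 ≤ 2 * C * (1 + W * C) := by positivity
    linarith
  · intro t ht
    have hx := hptb t ht
    have hn := hptn t ht
    have nx : 0 < 1 - t ^ 2 * ‖z‖ ^ 2 := by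
      rw [← hn]
      have := mem_ball_zero_iff.1 hx
      nlinarith [norm_nonneg ((t : ℂ) • z)]
    have nx1 : 1 - t ^ 2 * ‖z‖ ^ 2 ≤ 1 := by nlinarith [sq_nonneg (t * ‖z‖)]
    have h1 := ss_up h hx
    rw [hn, ← hW] at h1
    have h2 := fs_norm h hx
    have h3 : (1 : ℝ) ≤ (1 - t ^ 2 * ‖z‖ ^ 2) ^ (-a) := by
      rw [Real.rpow_neg nx.le]
      exact one_le_inv₀ (Real.rpow_pos_of_pos nx _) |>.2 (Real.rpow_le_one nx.le nx1 ha.le)
    have h4 : ‖FS V ((t : ℂ) • z)‖ ≤ (1 + W * C) * (1 - t ^ 2 * ‖z‖ ^ 2) ^ (-a) := by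
      nlinarith [h2.2]
    have h5 := (h k).lo w hw z hz
    have h6 := ss_ge h hz k
    have hcz : 0 < (chh z w * (1 - ‖z‖ ^ 2)) ^ a := Real.rpow_pos_of_pos (by positivity) _
    -- `1 ≤ 2 C (chh (1 - ‖z‖²))^a ‖FS z‖/wc k`
    have h7 : wc k ≤ ‖FS V z‖ * (2 * C * (chh z w * (1 - ‖z‖ ^ 2)) ^ a) := by
      have e1 : wc k * ‖V k z‖ ≤ 2 * ‖FS V z‖ := by linarith [hFz.1]
      have e2 : wc k ≤ C * (chh z w * (1 - ‖z‖ ^ 2)) ^ a * (wc k * ‖V k z‖) := by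
        calc wc k = wc k * 1 := (mul_one _).symm
          _ ≤ wc k * (C * ‖V k z‖ * (chh z w * (1 - ‖z‖ ^ 2)) ^ a) :=
              mul_le_mul_of_nonneg_left h5 hwk.le
          _ = _ := by ring
      calc wc k ≤ C * (chh z w * (1 - ‖z‖ ^ 2)) ^ a * (wc k * ‖V k z‖) := e2
        _ ≤ C * (chh z w * (1 - ‖z‖ ^ 2)) ^ a * (2 * ‖FS V z‖) :=
            mul_le_mul_of_nonneg_left e1 (by positivity)
        _ = _ := by ring
    show ‖FS V z‖⁻¹ * ‖FS V ((t : ℂ) • z)‖ ≤ _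
    rw [inv_mul_le_iff₀ hFz0]
    have h8 : ((1 - ‖z‖ ^ 2) / (1 - t ^ 2 * ‖z‖ ^ 2)) ^ a =
        (1 - ‖z‖ ^ 2) ^ a * (1 - t ^ 2 * ‖z‖ ^ 2) ^ (-a) := by
      rw [Real.div_rpow nz.le nx.le, Real.rpow_neg nx.le, div_eq_mul_inv]
    have h9 : (chh z w * (1 - ‖z‖ ^ 2)) ^ a = chh z w ^ a * (1 - ‖z‖ ^ 2) ^ a :=
      Real.mul_rpow (by linarith) nz.le
    rw [h8]
    rw [h9] at h7
    obtain ⟨X, hX⟩ : ∃ X, X = (1 - t ^ 2 * ‖z‖ ^ 2) ^ (-a) := ⟨_, rfl⟩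
    obtain ⟨Z, hZ⟩ : ∃ Z, Z = (1 - ‖z‖ ^ 2) ^ a := ⟨_, rfl⟩
    obtain ⟨c, hc⟩ : ∃ c, c = chh z w ^ a := ⟨_, rfl⟩
    obtain ⟨F, hF⟩ : ∃ F, F = ‖FS V z‖ := ⟨_, rfl⟩
    rw [← hX] at h3 h4 ⊢
    rw [← hZ, ← hc, ← hF] at h7
    rw [← hZ, ← hc, ← hF]
    have hX0 : 0 < X := by linarith
    have hZ0 : 0 < Z := by rw [hZ]; exact Real.rpow_pos_of_pos nz _
    have hc0 : 0 < c := by rw [hc]; exact hcha
    have hF0 : 0 < F := by rw [hF]; exact hFz0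
    have h10 : (1 + W * C) * X ≤ F * (2 * C * (1 + W * C) * (c / wc k * (Z * X))) := by
      have e1 : 1 ≤ F * (2 * C * (c * Z)) / wc k := by
        rw [one_le_div hwk]
        exact h7
      calc (1 + W * C) * X ≤ (F * (2 * C * (c * Z)) / wc k) * ((1 + W * C) * X) :=
            le_mul_of_one_le_left (by positivity) e1
        _ = _ := by ring
    refine h4.trans (h10.trans ?_)
    refine mul_le_mul_of_nonneg_left ?_ hF0.le
    refine mul_le_mul_of_nonneg_right ?_ (by positivity)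
    have : 0 ≤ 2 * (1 + C) := by positivity
    linarith

theorem seq_sol (μ : Measure E) [μ.IsAddHaarMeasure] {m : ℕ} (hm : 1 ≤ m)
    (hdim : Module.finrank ℂ E = m + 1) (N : ℕ) {δ a C : ℝ} (hδ : 0 < δ) (ha : 0 < a) (ha1 : a ≤ 1)
    (hC : 0 < C) : ∃ C' : ℝ, 0 < C' ∧ ∀ f : Fin N → E → ℂ,
      (∀ j, DifferentiableOn ℂ (f j) (ball 0 1)) →
      (∀ z ∈ ball (0 : E) 1, δ ≤ ∑ j, ‖f j z‖ ^ 2 ∧ ∑ j, ‖f j z‖ ^ 2 ≤ 1) →
      ∀ (M : ℕ → Set E) (V : ℕ → E → ℂ), (∀ k, M k ⊆ ball 0 1) → (∀ k, Wt a C (M k) (V k)) →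
      ∃ h : Fin N → E → ℂ, (∀ j, DifferentiableOn ℂ (h j) (ball 0 1)) ∧
        ∀ z ∈ ball (0 : E) 1, ∑ j, f j z * h j z = 1 ∧ ∀ k, ∀ w ∈ M k, ∀ j,
          ‖h j z‖ ≤ C' * (1 + Real.log (k + 1) + Real.log (chh z w)) := by
  have hsδ : 0 < Real.sqrt δ := Real.sqrt_pos.2 hδ
  obtain ⟨Λ, hΛ, hOm⟩ := TE.Om_le (E := E) μ hm hdim (M := m + 2) le_rfl N
  obtain ⟨C₂, hC₂, hext⟩ := extendV (E := E) μ hm hdim N (δ := δ) (A := 1 / Real.sqrt δ) hδ
    (by positivity) 1 (C := 4 * (2 + C)) (by positivity)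
  obtain ⟨W, hW⟩ : ∃ W : ℝ, W = ∑' k, wc k := ⟨_, rfl⟩
  have hW0 : 0 ≤ W := by rw [hW]; exact tsum_nonneg fun k => (wc_pos k).le
  obtain ⟨K, hK⟩ : ∃ K : ℝ, K = 2 * (1 + C) + 2 * C * (1 + W * C) := ⟨_, rfl⟩
  have hK0 : 0 < K := by rw [hK]; positivity
  refine ⟨C₂ * (1 + Λ + Λ * K * (2 / a * 2 + 4 / 3)), by positivity, fun f hf hb M V hM hV => ?_⟩
  have hb0 := hb 0 (by simp)
  set S : ℝ := ∑ j, ‖f j 0‖ ^ 2 with hS
  have hS0 : 0 < S := lt_of_lt_of_le hδ hb0.1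
  have hSc : (S : ℂ) ≠ 0 := by
    exact_mod_cast hS0.ne'
  have hP : Prj (0 : E →L[ℂ] E) := by
    exact ⟨fun x => by simp, fun x y => by simp⟩
  have hfM : ∀ j, ∀ z ∈ ball (0 : E) 1, ‖f j z‖ ≤ 1 := by
    intro j z hz
    have e1 : ‖f j z‖ ^ 2 ≤ 1 :=
      (Finset.single_le_sum (f := fun j => ‖f j z‖ ^ 2) (fun i _ => sq_nonneg _)
        (Finset.mem_univ j)).trans (hb z hz).2
    have e2 : 0 ≤ ‖f j z‖ := norm_nonneg _
    nlinarith
  have hFpos : ∀ z ∈ ball (0 : E) 1, 1 / 2 ≤ ‖FS V z‖ := by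
    intro z hz
    have h1 := (fs_norm hV hz).1
    have h2 := ss_nonneg V z
    linarith
  have hF0 : ∀ z ∈ ball (0 : E) 1, FS V z ≠ 0 := by
    intro z hz h
    have := hFpos z hz
    rw [h, norm_zero] at this
    linarith
  obtain ⟨h, hh1, hh2⟩ := hext f hf hb 0 hP (fun j _ => (starRingEnd ℂ) (f j 0) / (S : ℂ))
    (fun j => differentiableOn_const _) (by
      intro z _
      constructor
      · have h1 : ∀ j, f j ((0 : E →L[ℂ] E) z) * ((starRingEnd ℂ) (f j 0) / (S : ℂ)) =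
            ((‖f j 0‖ ^ 2 : ℝ) : ℂ) / (S : ℂ) := by
          intro j
          rw [ContinuousLinearMap.zero_apply, mul_div_assoc', Complex.mul_conj,
            Complex.normSq_eq_norm_sq]
        simp_rw [h1]
        rw [← Finset.sum_div, ← Complex.ofReal_sum, ← hS]
        exact div_self hSc
      · have h1 : ∀ j, ‖(starRingEnd ℂ) (f j 0) / (S : ℂ)‖ ^ 2 = ‖f j 0‖ ^ 2 / S ^ 2 := by
          intro j
          rw [norm_div, div_pow]
          congr 1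
          · rw [RCLike.norm_conj]
          · rw [Complex.norm_real, Real.norm_eq_abs, sq_abs]
        simp_rw [h1]
        rw [← Finset.sum_div, ← hS, div_pow, one_pow, Real.sq_sqrt hδ.le]
        rw [pow_two, div_mul_cancel_left₀ hS0.ne', inv_eq_one_div]
        exact one_div_le_one_div_of_le hδ hb0.1) (fun z => (FS V z)⁻¹)
    ((fs_holo ha hC hV).inv hF0) (fun z hz => inv_ne_zero (hF0 z hz))
    ⟨0, 2, fun z hz => by
      rw [norm_inv, pow_zero, mul_one]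
      exact inv_le_of_inv_le₀ two_pos (by rw [← one_div]; exact hFpos z hz)⟩
    (fun z => Λ * ‖FS V z‖) (fs_vw ha hC hΛ hV) (fun y hy => by
      rw [norm_inv, mul_assoc, mul_inv_cancel₀ (norm_ne_zero_iff.2 (hF0 y hy)), mul_one]
      exact hOm f hf hfM y hy)
  refine ⟨h, hh1, fun z hz => ?_⟩
  obtain ⟨g1, -, g3⟩ := hh2 z hz
  refine ⟨g1, fun k w hw j => (g3 j).trans ?_⟩
  have hz1 := mem_ball_zero_iff.1 hz
  have hw1 := mem_ball_zero_iff.1 (hM k hw)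
  have hch := chh_one hz1 hw1
  have hpath := W6_path ha ha1 hC hV hM hz hw
  rw [← hW, ← hK] at hpath
  have hGI : GI (fun y => Λ * ‖FS V y‖) (0 : E →L[ℂ] E) z =
      Λ * GI (fun y => ‖FS V y‖) (0 : E →L[ℂ] E) z := by
    unfold GI
    rw [← integral_const_mul]
    refine integral_congr_ae (Eventually.of_forall fun t => ?_)
    simp only
    ring
  have hwk := wc_pos k
  have hlogA : Real.log (1 + chh z w ^ a / wc k) ≤
      2 * (1 + Real.log (k + 1) + Real.log (chh z w)) := by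
    have hk1 : (0 : ℝ) < (k : ℝ) + 1 := by positivity
    have hca : 1 ≤ chh z w ^ a := Real.one_le_rpow hch ha.le
    have hA1 : chh z w ^ a / wc k = chh z w ^ a * ((k : ℝ) + 1) ^ 2 := by
      unfold wc
      field_simp
    have hA2 : 1 ≤ chh z w ^ a * ((k : ℝ) + 1) ^ 2 := by
      have : (1 : ℝ) ≤ ((k : ℝ) + 1) ^ 2 := one_le_pow₀ (by
        have : (0 : ℝ) ≤ k := Nat.cast_nonneg k
        linarith)
      nlinarith
    rw [hA1]
    calc Real.log (1 + chh z w ^ a * ((k : ℝ) + 1) ^ 2)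
        ≤ Real.log (2 * (chh z w ^ a * ((k : ℝ) + 1) ^ 2)) :=
          Real.log_le_log (by positivity) (by linarith)
      _ = Real.log 2 + (a * Real.log (chh z w) + 2 * Real.log ((k : ℝ) + 1)) := by
          rw [Real.log_mul two_ne_zero (by positivity), Real.log_mul (by positivity) (by positivity),
            Real.log_rpow (by linarith), Real.log_pow]
          push_cast
          ring
      _ ≤ _ := by
          have l1 : Real.log 2 ≤ 1 := by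
            have := Real.log_le_sub_one_of_pos (x := 2) two_pos
            linarith
          have l2 : 0 ≤ Real.log (chh z w) := Real.log_nonneg hch
          have l3 : a * Real.log (chh z w) ≤ 1 * Real.log (chh z w) :=
            mul_le_mul_of_nonneg_right ha1 l2
          linarith
  have hL1 : 0 ≤ Real.log ((k : ℝ) + 1) := Real.log_nonneg (by
    have : (0 : ℝ) ≤ k := Nat.cast_nonneg k
    linarith)
  have hL2 : 0 ≤ Real.log (chh z w) := Real.log_nonneg hch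
  obtain ⟨X, hX⟩ : ∃ X, X = 1 + Real.log ((k : ℝ) + 1) + Real.log (chh z w) := ⟨_, rfl⟩
  rw [← hX] at hlogA ⊢
  have hX1 : 1 ≤ X := by linarith
  have hFz := norm_ne_zero_iff.2 (hF0 z hz)
  have e1 : ‖(FS V z)⁻¹‖ * (Λ * ‖FS V z‖ + GI (fun y => Λ * ‖FS V y‖) (0 : E →L[ℂ] E) z) =
      Λ + Λ * (‖FS V z‖⁻¹ * GI (fun y => ‖FS V y‖) (0 : E →L[ℂ] E) z) := by
    rw [hGI, norm_inv]
    field_simp
  rw [e1]
  have e2 : K * (2 / a * Real.log (1 + chh z w ^ a / wc k) + 4 / 3) ≤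
      K * ((2 / a * 2 + 4 / 3) * X) := by
    refine mul_le_mul_of_nonneg_left ?_ hK0.le
    have : 2 / a * Real.log (1 + chh z w ^ a / wc k) ≤ 2 / a * (2 * X) :=
      mul_le_mul_of_nonneg_left hlogA (by positivity)
    nlinarith
  have e3 : Λ * (‖FS V z‖⁻¹ * GI (fun y => ‖FS V y‖) (0 : E →L[ℂ] E) z) ≤
      Λ * (K * ((2 / a * 2 + 4 / 3) * X)) := mul_le_mul_of_nonneg_left (hpath.trans e2) hΛ.le
  rw [mul_assoc C₂]
  refine mul_le_mul_of_nonneg_left ?_ hC₂.le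
  have e4 : 0 ≤ Λ * K * (2 / a * 2 + 4 / 3) := by positivity
  nlinarith

end Pool.Agent.MPca0fc2.TQ
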