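import Mathlib
import Pool.Agent.Lib.MP_ca0fc2_an.TQ.W3
import Pool.Agent.Lib.MP_ca0fc2_an.TQ.W6

/-! One solution for a sequence of totally real geodesics and cones. -/

set_option autoImplicit false
set_option linter.unusedSectionVars false

open Metric Set MeasureTheory Filter Topology
open scoped InnerProductSpace ENNReal ContDiff

namespace Pool.Agent.MPca0fc2.TQ

open Pool.Agent.MPca0fc2.TK
open Pool.Agent.Lib.MP_ca0fc2_an

variable {E : Type*} [NormedAddCommGroup E] [InnerProductSpace ℂ E] [FiniteDimensional ℂ E]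
  [MeasurableSpace E] [BorelSpace E]

theorem LA.mono {B B' c C : ℝ} {l : E → ℂ} (h : LA B c C l) (hB : B ≤ B') : LA B' c C l :=
  ⟨h.holo, fun z hz => (h.im z hz).trans hB, h.adm⟩

theorem Wt.mono {a C C' : ℝ} {M M' : Set E} {V : E → ℂ} (h : Wt a C M V) (hC : C ≤ C')
    (hM : M' ⊆ M) (hb : M ⊆ ball 0 1) : Wt a C' M' V := by
  refine ⟨h.holo, h.sec, fun z hz => ?_, fun x hx y hy => ?_, fun w hw z hz => ?_⟩
  · have hz1 := mem_ball_zero_iff.1 hz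
    have nz : 0 ≤ 1 - ‖z‖ ^ 2 := by nlinarith [norm_nonneg z]
    exact (h.up z hz).trans (mul_le_mul_of_nonneg_right hC (Real.rpow_nonneg nz _))
  · have hx1 := mem_ball_zero_iff.1 hx
    have nx : 0 ≤ 1 - ‖x‖ ^ 2 := by nlinarith [norm_nonneg x]
    refine (h.osc x hx y hy).trans (mul_le_mul_of_nonneg_right
      (mul_le_mul_of_nonneg_right hC (norm_nonneg _)) (div_nonneg (norm_nonneg _) nx))
  · refine (h.lo w (hM hw) z hz).trans ?_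
    have hz1 := mem_ball_zero_iff.1 hz
    have hw1 := mem_ball_zero_iff.1 (hb (hM hw))
    have nz : 0 ≤ 1 - ‖z‖ ^ 2 := by nlinarith [norm_nonneg z]
    have h1 := chh_one hz1 hw1
    exact mul_le_mul_of_nonneg_right (mul_le_mul_of_nonneg_right hC (norm_nonneg _))
      (Real.rpow_nonneg (mul_nonneg (by linarith) nz) _)

/-- the union of the radii with end points in `K` -/
def rays (K : Set E) : Set E := {z | ∃ t : ℝ, 0 ≤ t ∧ t < 1 ∧ ∃ ζ ∈ K, z = (t : ℂ) • ζ}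

/-- the real ball -/
def rball {k : ℕ} (e : Fin k → E) : Set E := {x | ‖x‖ < 1 ∧ ∃ t : Fin k → ℝ,
  x = ∑ j, ((t j : ℝ) : ℂ) • e j}

theorem rays_sub {K : Set E} (hK : K ⊆ sphere 0 1) : rays K ⊆ ball (0 : E) 1 := by
  rintro _ ⟨t, ht0, ht1, ζ, hζ, rfl⟩
  rw [mem_ball_zero_iff, norm_smul, Complex.norm_real, Real.norm_of_nonneg ht0,
    mem_sphere_zero_iff_norm.1 (hK hζ), mul_one]
  exact ht1

theorem rball_sub {k : ℕ} (e : Fin k → E) : rball e ⊆ ball (0 : E) 1 := fun _ hx =>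
  mem_ball_zero_iff.2 hx.1

private theorem W7_ray {t : ℝ} {u : ℂ} (ht0 : 0 ≤ t) (ht1 : t ≤ 1) (hu : ‖u‖ ≤ 1) :
    ‖1 - u‖ ≤ 2 * ‖1 - (t : ℂ) * u‖ := by
  have h7 : ‖(t : ℂ) * u‖ ≤ t := by
    rw [norm_mul, Complex.norm_real, Real.norm_of_nonneg ht0]
    nlinarith [norm_nonneg u]
  have h8 : 1 - t ≤ ‖1 - (t : ℂ) * u‖ := by
    have h9 := norm_sub_norm_le (1 : ℂ) ((t : ℂ) * u)
    rw [norm_one] at h9
    linarith
  have h10 : ‖1 - u‖ ≤ ‖1 - (t : ℂ) * u‖ + (1 - t) := by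
    have e2 : 1 - u = (1 - (t : ℂ) * u) - ((1 - t : ℝ) : ℂ) * u := by push_cast; ring
    rw [e2]
    refine (norm_sub_le _ _).trans (add_le_add le_rfl ?_)
    rw [norm_mul, Complex.norm_real, Real.norm_of_nonneg (by linarith)]
    nlinarith [norm_nonneg u]
  linarith

/-- weights with uniform constants -/
theorem fam_wt {β C₀ : ℝ} (hβ0 : 0 ≤ β) (hβ1 : β < 1) : ∃ a C : ℝ, 0 < a ∧ a ≤ 1 ∧ 0 < C ∧
    (∀ φ ψ : E → E, IsBallAut φ ψ → ∀ (k : ℕ) (e : Fin k → E), Orthonormal ℂ e →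
      ∃ V : E → ℂ, Wt a C (φ '' rball e) V) ∧
    ∀ φ ψ : E → E, IsBallAut φ ψ → ∀ K : Set E, Hom β C₀ K → K ⊆ sphere 0 1 →
      ∃ V : E → ℂ, Wt a C (φ '' rays K) V := by
  obtain ⟨B₁, c₁, C₁, hB₁, hc₁, hC₁, hthin⟩ := thin_la (E := E) hβ0 hβ1 (C := max C₀ 1)
    (by positivity)
  obtain ⟨B, hB⟩ : ∃ B : ℝ, B = max B₁ (Real.pi / 2) := ⟨_, rfl⟩
  have hB1 : B₁ ≤ B := by rw [hB]; exact le_max_left _ _
  have hB2 : Real.pi / 2 ≤ B := by rw [hB]; exact le_max_right _ _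
  have hpi := Real.pi_pos
  have hBp : 0 < B + Real.pi := by linarith
  obtain ⟨a, ha⟩ : ∃ a : ℝ, a = min (1 / 8) (Real.pi / 3 / (B + Real.pi)) := ⟨_, rfl⟩
  have ha0 : 0 < a := by rw [ha]; exact lt_min (by norm_num) (by positivity)
  have ha8 : a ≤ 1 / 8 := by rw [ha]; exact min_le_left _ _
  have haB : a * (B + Real.pi) ≤ Real.pi / 3 := by
    rw [← le_div_iff₀ hBp, ha]
    exact min_le_right _ _
  obtain ⟨D₁, hD₁, h1⟩ := wt_of_la (E := E) (C := 20) (C' := 60) ha0 ha8 haB one_pos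
    (by norm_num) (by norm_num)
  obtain ⟨D₂, hD₂, h2⟩ := wt_of_la (E := E) (C := C₁) (C' := 2 * C₁) ha0 ha8 haB hc₁ hC₁
    (by positivity)
  have hreal : ∀ φ ψ : E → E, IsBallAut φ ψ → ∀ (k : ℕ) (e : Fin k → E), Orthonormal ℂ e →
      ∃ V : E → ℂ, Wt a (D₁ + D₂) (φ '' rball e) V := by
    intro φ ψ hφ k e he
    obtain ⟨g1, g2⟩ := real_la he
    obtain ⟨V, hV⟩ := h1 _ (g1.mono hB2) φ ψ hφ (rball e) (rball_sub e) (by
      rintro w ⟨hw, t, rfl⟩ z hz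
      exact g2 t hw z hz)
    exact ⟨V, hV.mono (by linarith) subset_rfl (by
      rintro _ ⟨x, hx, rfl⟩
      exact hφ.map x (rball_sub e hx))⟩
  refine ⟨a, D₁ + D₂, ha0, by linarith, by positivity, hreal, fun φ ψ hφ K hK hKs => ?_⟩
  rcases K.eq_empty_or_nonempty with rfl | hne
  · obtain ⟨V, hV⟩ := hreal φ ψ hφ 0 (fun j => Fin.elim0 j)
      ⟨fun j => Fin.elim0 j, fun j => Fin.elim0 j⟩
    refine ⟨V, hV.mono le_rfl ?_ (by
      rintro _ ⟨x, hx, rfl⟩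
      exact hφ.map x (rball_sub _ hx))⟩
    rintro _ ⟨_, ⟨t, -, -, ζ, hζ, -⟩, rfl⟩
    exact absurd hζ (Set.notMem_empty ζ)
  · obtain ⟨l, hl, hl2⟩ := hthin K (fun x₀ hx₀ r R hr hrR S hS1 hS2 hS3 =>
      (hK x₀ hx₀ r R hr hrR S hS1 hS2 hS3).trans (mul_le_mul_of_nonneg_right (le_max_left _ _)
        (Real.rpow_nonneg (div_nonneg (hr.le.trans hrR) hr.le) _))) hKs hne
    obtain ⟨V, hV⟩ := h2 l (hl.mono hB1) φ ψ hφ (rays K) (rays_sub hKs) (by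
      rintro _ ⟨t, ht0, ht1, ζ, hζ, rfl⟩ z hz
      refine (hl2 ζ hζ z hz).trans ?_
      have hz1 := mem_ball_zero_iff.1 hz
      have hζ1 := mem_sphere_zero_iff_norm.1 (hKs hζ)
      have h5 : ‖⟪ζ, z⟫_ℂ‖ ≤ 1 := by
        have h6 := norm_inner_le_norm (𝕜 := ℂ) ζ z
        rw [hζ1, one_mul] at h6
        linarith
      have e1 : ⟪(t : ℂ) • ζ, z⟫_ℂ = (t : ℂ) * ⟪ζ, z⟫_ℂ := by
        rw [inner_smul_left, Complex.conj_ofReal]
      rw [e1, mul_comm (2 : ℝ), mul_assoc]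
      exact mul_le_mul_of_nonneg_left (W7_ray ht0 ht1.le h5) hC₁.le)
    exact ⟨V, hV.mono (by linarith) subset_rfl (by
      rintro _ ⟨x, hx, rfl⟩
      exact hφ.map x (rays_sub hKs hx))⟩

/-- One solution for a sequence of totally real geodesics and cones, in arbitrary position. -/
theorem seq_growth (hE : 2 ≤ Module.finrank ℂ E) (N : ℕ) {β C₀ δ : ℝ} (hβ0 : 0 ≤ β) (hβ1 : β < 1)
    (hδ : 0 < δ) : ∃ C : ℝ, 0 < C ∧ ∀ f : Fin N → E → ℂ,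
      (∀ j, DifferentiableOn ℂ (f j) (ball 0 1)) →
      (∀ z ∈ ball (0 : E) 1, δ ≤ ∑ j, ‖f j z‖ ^ 2 ∧ ∑ j, ‖f j z‖ ^ 2 ≤ 1) →
      ∀ M : ℕ → Set E, (∀ i, ∃ φ ψ : E → E, IsBallAut φ ψ ∧
        ((∃ (k : ℕ) (e : Fin k → E), Orthonormal ℂ e ∧ M i = φ '' rball e) ∨
          ∃ K : Set E, Hom β C₀ K ∧ K ⊆ sphere 0 1 ∧ M i = φ '' rays K)) →
      ∃ h : Fin N → E → ℂ, (∀ j, DifferentiableOn ℂ (h j) (ball 0 1)) ∧
        ∀ z ∈ ball (0 : E) 1, ∑ j, f j z * h j z = 1 ∧ ∀ i, ∀ w ∈ M i, ∀ j,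
          ‖h j z‖ ≤ C * (1 + Real.log (i + 1) + Real.log (chh z w)) := by
  obtain ⟨a, C, ha, ha1, hC, g1, g2⟩ := fam_wt (E := E) (C₀ := C₀) hβ0 hβ1
  haveI : ProperSpace E := FiniteDimensional.proper ℂ E
  let μ : Measure E := MeasureTheory.Measure.addHaar
  obtain ⟨C', hC', h1⟩ := seq_sol (E := E) μ (m := Module.finrank ℂ E - 1) (by omega) (by omega) N
    hδ ha ha1 hC
  refine ⟨C', hC', fun f hf hb M hM => ?_⟩
  have hV : ∀ i, ∃ V : E → ℂ, Wt a C (M i) V := by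
    intro i
    obtain ⟨φ, ψ, hφ, ⟨k, e, he, h⟩ | ⟨K, hK, hKs, h⟩⟩ := hM i
    · rw [h]
      exact g1 φ ψ hφ k e he
    · rw [h]
      exact g2 φ ψ hφ K hK hKs
  choose V hV using hV
  refine h1 f hf hb M V (fun i => ?_) hV
  obtain ⟨φ, ψ, hφ, ⟨k, e, he, h⟩ | ⟨K, hK, hKs, h⟩⟩ := hM i
  · rw [h]
    rintro _ ⟨x, hx, rfl⟩
    exact hφ.map x (rball_sub e hx)
  · rw [h]
    rintro _ ⟨x, hx, rfl⟩
    exact hφ.map x (rays_sub hKs hx)

end Pool.Agent.MPca0fc2.TQ
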