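import Mathlib
import Pool.Agent.Lib.MP_ca0fc2_an.TQ.W6
import Pool.Agent.Lib.MP_ca0fc2_an.TE.G1
import Pool.Agent.Lib.MP_ca0fc2_an.TE.B4a

/-! One solution for a slice and a sequence of sets. -/

set_option autoImplicit false
set_option linter.unusedSectionVars false

open Metric Set MeasureTheory Filter Topology
open scoped InnerProductSpace ENNReal ContDiff

namespace Pool.Agent.MPca0fc2.TQ

open Pool.Agent.MPca0fc2.PT
open Pool.Agent.MPca0fc2.QT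
open Pool.Agent.MPca0fc2.TS
open Pool.Agent.MPca0fc2.TE
open Pool.Agent.MPca0fc2.TK
open Pool.Agent.MPca0fc2.VK

variable {E : Type*} [NormedAddCommGroup E] [InnerProductSpace ℂ E] [FiniteDimensional ℂ E]
  [MeasurableSpace E] [BorelSpace E]

private theorem W8_inner {P : E →L[ℂ] E} (hP : Prj P) (t : ℝ) (z : E) :
    ⟪pt P t z, z⟫_ℂ = ((‖P z‖ ^ 2 + t * ‖z - P z‖ ^ 2 : ℝ) : ℂ) := by
  have h1 : ⟪P z, z - P z⟫_ℂ = 0 := by
    have h1 := hP.sa (P z) z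
    rw [hP.idem] at h1
    rw [inner_sub_right, h1, sub_self]
  have h2 : ⟪z - P z, P z⟫_ℂ = 0 := by
    rw [← inner_conj_symm, h1, map_zero]
  have e : z = P z + (z - P z) := by abel
  have e1 : ⟪P z, z⟫_ℂ = ((‖P z‖ ^ 2 : ℝ) : ℂ) := by
    conv_lhs => rw [e]
    rw [map_add, map_sub, hP.idem, sub_self, add_zero, inner_add_right, h1, add_zero,
      inner_self_eq_norm_sq_to_K]
    push_cast
    rfl
  have e2 : ⟪z - P z, z⟫_ℂ = ((‖z - P z‖ ^ 2 : ℝ) : ℂ) := by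
    have e3 : ⟪z - P z, z⟫_ℂ = ⟪z - P z, P z⟫_ℂ + ⟪z - P z, z - P z⟫_ℂ := by
      rw [← inner_add_right]
      congr 1
    rw [e3, h2, zero_add, inner_self_eq_norm_sq_to_K]
    push_cast
    rfl
  unfold pt
  rw [inner_add_left, inner_smul_left, e1, e2, Complex.conj_ofReal]
  push_cast
  ring

/-- the integral along the geodesic from `P z` to `z` -/
theorem path_P {a C : ℝ} (ha : 0 < a) (hC : 0 < C) {M : ℕ → Set E}
    {V : ℕ → E → ℂ} (h : ∀ k, Wt a C (M k) (V k)) {P : E →L[ℂ] E} (hP : Prj P) {z : E}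
    (hz : z ∈ ball (0 : E) 1) {A K : ℝ} (hA : 0 ≤ A) (hK : 2 * (1 + C) ≤ K)
    (hb : ∀ t ∈ Icc (0 : ℝ) 1, ‖FS V (pt P t z)‖ ≤ 2 * (1 + C) * ‖FS V z‖ →
      ‖FS V (pt P t z)‖ ≤ ‖FS V z‖ * (K * (A * ((1 - ‖z‖ ^ 2) / (1 - ‖pt P t z‖ ^ 2)) ^ a))) :
    ‖FS V z‖⁻¹ * GI (fun y => ‖FS V y‖) P z ≤ K * (2 / a * Real.log (1 + A) + 4 / 3) := by
  have hz1 := mem_ball_zero_iff.1 hz
  have nz : 0 < 1 - ‖z‖ ^ 2 := by nlinarith [norm_nonneg z]
  have hFz := fs_norm h hz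
  have hSz := ss_nonneg V z
  have hFz0 : 0 < ‖FS V z‖ := by linarith [hFz.1]
  obtain ⟨r, hr⟩ : ∃ r, r = rr P z := ⟨_, rfl⟩
  obtain ⟨q, hq⟩ : ∃ q, q = 1 - ‖P z‖ ^ 2 := ⟨_, rfl⟩
  have hr0 : 0 ≤ r := by rw [hr]; exact (rr_facts hP hz1 0).1
  have hr1 : r < 1 := by rw [hr]; exact (rr_facts hP hz1 0).2.1
  have hq0 : 0 < q := by rw [hq]; exact (rr_facts hP hz1 0).2.2.1
  have hD : ∀ t : ℝ, 1 - ‖pt P t z‖ ^ 2 = q * (1 - t ^ 2 * r ^ 2) := by
    intro t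
    rw [Dp_eq hP, hq, hr]
    exact (rr_facts hP hz1 t).2.2.2.2
  have hD1 : 1 - ‖z‖ ^ 2 = q * (1 - r ^ 2) := by
    have h1 := hD 1
    rw [pt_one] at h1
    rw [h1]
    ring
  have hden : ∀ t ∈ Icc (0 : ℝ) 1, 0 < 1 - t ^ 2 * r ^ 2 := by
    intro t ht
    have h1 : t * r < 1 := by nlinarith [ht.1, ht.2]
    have h2 : 0 ≤ t * r := mul_nonneg ht.1 hr0
    nlinarith
  have hptb : ∀ t ∈ Icc (0 : ℝ) 1, pt P t z ∈ ball (0 : E) 1 := by
    intro t ht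
    have h1 := hD t
    have h2 : 0 < 1 - ‖pt P t z‖ ^ 2 := by
      rw [h1]
      exact mul_pos hq0 (hden t ht)
    rw [mem_ball_zero_iff]
    by_contra hc
    push Not at hc
    nlinarith
  have hcont : ContinuousOn (fun t : ℝ => ‖FS V z‖⁻¹ * ‖FS V (pt P t z)‖) (Icc 0 1) := by
    refine continuousOn_const.mul (ContinuousOn.norm ?_)
    refine (fs_holo ha hC h).continuousOn.comp ?_ fun t ht => hptb t ht
    unfold pt
    fun_prop
  have hbig : ∀ t ∈ Icc (0 : ℝ) 1, ‖FS V (pt P t z)‖ ≤ 2 * (1 + C) * ‖FS V z‖ := by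
    intro t ht
    have hx := hptb t ht
    have nx : 0 < 1 - ‖pt P t z‖ ^ 2 := by
      rw [hD t]
      exact mul_pos hq0 (hden t ht)
    have hin : ‖1 - ⟪pt P t z, z⟫_ℂ‖ = q * (1 - t * r ^ 2) := by
      have e1 : ‖z - P z‖ ^ 2 = r ^ 2 * q := by
        have := pyth hP z
        rw [hq] at hD1 ⊢
        nlinarith
      rw [W8_inner hP]
      have e2 : (1 : ℂ) - ((‖P z‖ ^ 2 + t * ‖z - P z‖ ^ 2 : ℝ) : ℂ) =
          ((q * (1 - t * r ^ 2) : ℝ) : ℂ) := by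
        rw [e1, hq]
        push_cast
        ring
      rw [e2, Complex.norm_real, Real.norm_of_nonneg]
      refine mul_nonneg hq0.le ?_
      have h3 : r ^ 2 ≤ 1 := by nlinarith
      nlinarith [ht.1, ht.2, sq_nonneg r]
    have hX : ‖1 - ⟪pt P t z, z⟫_ℂ‖ / (1 - ‖pt P t z‖ ^ 2) ≤ 1 := by
      rw [div_le_one nx, hin, hD t]
      refine mul_le_mul_of_nonneg_left ?_ hq0.le
      nlinarith [ht.1, ht.2, sq_nonneg r, mul_nonneg ht.1 (sub_nonneg.2 ht.2)]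
    have h1 := ss_osc h hx hz
    have h2 := fs_norm h hx
    have h3 : SS V (pt P t z) ≤ C * SS V z := by
      refine h1.trans ?_
      have := mul_le_mul_of_nonneg_left hX hC.le
      rw [mul_one] at this
      exact mul_le_mul_of_nonneg_right this hSz
    nlinarith [h2.2, hFz.1]
  have key := path_log (a := a) (A := A) (K := K) (r := r) ha hA (by linarith) hr0 hr1
    hcont (fun t ht => ?_) (fun t ht => ?_)
  · have e : ‖FS V z‖⁻¹ * GI (fun y => ‖FS V y‖) P z =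
        ∫ t in Icc (0 : ℝ) 1, ‖FS V z‖⁻¹ * ‖FS V (pt P t z)‖ * (r / (1 - t ^ 2 * r ^ 2)) := by
      unfold GI
      rw [← integral_const_mul]
      refine integral_congr_ae (Eventually.of_forall fun t => ?_)
      simp only [← hr]
      ring
    rw [e]
    exact key
  · show ‖FS V z‖⁻¹ * ‖FS V (pt P t z)‖ ≤ _
    rw [inv_mul_le_iff₀ hFz0]
    refine (hbig t ht).trans ?_
    rw [mul_comm]
    exact mul_le_mul_of_nonneg_left hK hFz0.le
  · show ‖FS V z‖⁻¹ * ‖FS V (pt P t z)‖ ≤ _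
    rw [inv_mul_le_iff₀ hFz0]
    have h1 := hb t ht (hbig t ht)
    have e : (1 - ‖z‖ ^ 2) / (1 - ‖pt P t z‖ ^ 2) = (1 - r ^ 2) / (1 - t ^ 2 * r ^ 2) := by
      rw [hD t, hD1]
      have := (hden t ht).ne'
      field_simp
    rw [e] at h1
    exact h1

/-- the bound for the sets of the sequence -/
theorem path_thin {a C : ℝ} (ha : 0 < a) (hC : 0 < C) {M : ℕ → Set E}
    {V : ℕ → E → ℂ} (h : ∀ k, Wt a C (M k) (V k)) (hM : ∀ k, M k ⊆ ball 0 1) {P : E →L[ℂ] E}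
    (hP : Prj P) {z : E} (hz : z ∈ ball (0 : E) 1) {k : ℕ} {w : E} (hw : w ∈ M k) :
    ‖FS V z‖⁻¹ * GI (fun y => ‖FS V y‖) P z ≤
      (2 * (1 + C) + 2 * C * (1 + (∑' k, wc k) * C)) *
        (2 / a * Real.log (1 + chh z w ^ a / wc k) + 4 / 3) := by
  have hz1 := mem_ball_zero_iff.1 hz
  have hw1 := mem_ball_zero_iff.1 (hM k hw)
  have nz : 0 < 1 - ‖z‖ ^ 2 := by nlinarith [norm_nonneg z]
  have hch := chh_one hz1 hw1
  have hcha : 0 < chh z w ^ a := Real.rpow_pos_of_pos (by linarith) _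
  obtain ⟨W, hW⟩ : ∃ W : ℝ, W = ∑' k, wc k := ⟨_, rfl⟩
  have hW0 : 0 ≤ W := by rw [hW]; exact tsum_nonneg fun k => (wc_pos k).le
  rw [← hW]
  have hwk := wc_pos k
  have hFz := fs_norm h hz
  have hSz := ss_nonneg V z
  have hFz0 : 0 < ‖FS V z‖ := by linarith [hFz.1]
  have hWC : 0 ≤ 2 * C * (1 + W * C) := by positivity
  refine path_P ha hC h hP hz (by positivity) (by linarith) fun t ht _ => ?_
  have hD := Dp_anti hP hz1 (s := t) (t := t) ht.1 le_rfl ht.2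
  rw [← Dp_eq hP t z] at hD
  have nx : 0 < 1 - ‖pt P t z‖ ^ 2 := by linarith [hD.1, hD.2.2.1]
  have hx : pt P t z ∈ ball (0 : E) 1 := by
    rw [mem_ball_zero_iff]
    by_contra hc
    push Not at hc
    nlinarith
  obtain ⟨x, hxe⟩ : ∃ x, x = pt P t z := ⟨_, rfl⟩
  rw [← hxe] at nx hx ⊢
  have nx1 : 1 - ‖x‖ ^ 2 ≤ 1 := by nlinarith [sq_nonneg ‖x‖]
  have h1 := ss_up h hx
  rw [← hW] at h1
  have h2 := fs_norm h hx
  have h3 : (1 : ℝ) ≤ (1 - ‖x‖ ^ 2) ^ (-a) := by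
    rw [Real.rpow_neg nx.le]
    exact one_le_inv₀ (Real.rpow_pos_of_pos nx _) |>.2 (Real.rpow_le_one nx.le nx1 ha.le)
  have h4 : ‖FS V x‖ ≤ (1 + W * C) * (1 - ‖x‖ ^ 2) ^ (-a) := by
    nlinarith [h2.2]
  have h5 := (h k).lo w hw z hz
  have h6 := ss_ge h hz k
  have hcz : 0 < (chh z w * (1 - ‖z‖ ^ 2)) ^ a := Real.rpow_pos_of_pos (by positivity) _
  have h7 : wc k ≤ ‖FS V z‖ * (2 * C * (chh z w * (1 - ‖z‖ ^ 2)) ^ a) := by
    have e1 : wc k * ‖V k z‖ ≤ 2 * ‖FS V z‖ := by linarith [hFz.1]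
    have e2 : wc k ≤ C * (chh z w * (1 - ‖z‖ ^ 2)) ^ a * (wc k * ‖V k z‖) := by
      calc wc k = wc k * 1 := (mul_one _).symm
        _ ≤ wc k * (C * ‖V k z‖ * (chh z w * (1 - ‖z‖ ^ 2)) ^ a) :=
            mul_le_mul_of_nonneg_left h5 hwk.le
        _ = _ := by ring
    calc wc k ≤ C * (chh z w * (1 - ‖z‖ ^ 2)) ^ a * (wc k * ‖V k z‖) := e2
      _ ≤ C * (chh z w * (1 - ‖z‖ ^ 2)) ^ a * (2 * ‖FS V z‖) :=
          mul_le_mul_of_nonneg_left e1 (by positivity)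
      _ = _ := by ring
  have h8 : ((1 - ‖z‖ ^ 2) / (1 - ‖x‖ ^ 2)) ^ a =
      (1 - ‖z‖ ^ 2) ^ a * (1 - ‖x‖ ^ 2) ^ (-a) := by
    rw [Real.div_rpow nz.le nx.le, Real.rpow_neg nx.le, div_eq_mul_inv]
  have h9 : (chh z w * (1 - ‖z‖ ^ 2)) ^ a = chh z w ^ a * (1 - ‖z‖ ^ 2) ^ a :=
    Real.mul_rpow (by linarith) nz.le
  rw [h8]
  rw [h9] at h7
  obtain ⟨X, hX⟩ : ∃ X, X = (1 - ‖x‖ ^ 2) ^ (-a) := ⟨_, rfl⟩
  obtain ⟨Z, hZ⟩ : ∃ Z, Z = (1 - ‖z‖ ^ 2) ^ a := ⟨_, rfl⟩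
  obtain ⟨c, hc⟩ : ∃ c, c = chh z w ^ a := ⟨_, rfl⟩
  obtain ⟨F, hF⟩ : ∃ F, F = ‖FS V z‖ := ⟨_, rfl⟩
  rw [← hX] at h3 h4 ⊢
  rw [← hZ, ← hc, ← hF] at h7
  rw [← hZ, ← hc, ← hF]
  have hX0 : 0 < X := by linarith
  have hZ0 : 0 < Z := by rw [hZ]; exact Real.rpow_pos_of_pos nz _
  have hc0 : 0 < c := by rw [hc]; exact hcha
  have hF0 : 0 < F := by rw [hF]; exact hFz0
  have h10 : (1 + W * C) * X ≤ F * (2 * C * (1 + W * C) * (c / wc k * (Z * X))) := by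
    have e1 : 1 ≤ F * (2 * C * (c * Z)) / wc k := by
      rw [one_le_div hwk]
      exact h7
    calc (1 + W * C) * X ≤ (F * (2 * C * (c * Z)) / wc k) * ((1 + W * C) * X) :=
          le_mul_of_one_le_left (by positivity) e1
      _ = _ := by ring
  refine h4.trans (h10.trans ?_)
  refine mul_le_mul_of_nonneg_left ?_ hF0.le
  refine mul_le_mul_of_nonneg_right ?_ (by positivity)
  have : 0 ≤ 2 * (1 + C) := by positivity
  linarith

/-- the bound for the slice -/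
theorem path_slice {a C : ℝ} (ha : 0 < a) (hC : 0 < C) {M : ℕ → Set E}
    {V : ℕ → E → ℂ} (h : ∀ k, Wt a C (M k) (V k)) {P : E →L[ℂ] E}
    (hP : Prj P) {z : E} (hz : z ∈ ball (0 : E) 1) {w : E} (hw : w ∈ ball (0 : E) 1)
    (hPw : P w = w) :
    ‖FS V z‖⁻¹ * GI (fun y => ‖FS V y‖) P z ≤
      (2 * (1 + C)) * (2 / a * Real.log (1 + chh z w ^ a) + 4 / 3) := by
  have hz1 := mem_ball_zero_iff.1 hz
  have hw1 := mem_ball_zero_iff.1 hw
  have nz : 0 < 1 - ‖z‖ ^ 2 := by nlinarith [norm_nonneg z]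
  have nw : 0 < 1 - ‖w‖ ^ 2 := by nlinarith [norm_nonneg w]
  have hch := chh_one hz1 hw1
  have hPz1 : ‖P z‖ < 1 := (norm_P_le hP z).trans_lt hz1
  have nP : 0 < 1 - ‖P z‖ ^ 2 := by nlinarith [norm_nonneg (P z)]
  -- the distance to the slice
  have hdist : 1 - ‖P z‖ ^ 2 ≤ chh z w * (1 - ‖z‖ ^ 2) := by
    have h1 := chh_one hPz1 hw1
    have h2 : ⟪P z, w⟫_ℂ = ⟪z, w⟫_ℂ := by rw [hP.sa, hPw]
    unfold chh at h1 ⊢
    rw [one_le_div (by positivity), h2] at h1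
    rw [div_mul_eq_mul_div, le_div_iff₀ (by positivity)]
    calc (1 - ‖P z‖ ^ 2) * ((1 - ‖z‖ ^ 2) * (1 - ‖w‖ ^ 2))
        = ((1 - ‖P z‖ ^ 2) * (1 - ‖w‖ ^ 2)) * (1 - ‖z‖ ^ 2) := by ring
      _ ≤ _ := mul_le_mul_of_nonneg_right h1 nz.le
  refine path_P ha hC h hP hz (Real.rpow_nonneg (by linarith) _) le_rfl fun t ht hbig => ?_
  have hD := Dp_anti hP hz1 (s := 0) (t := t) le_rfl ht.1 ht.2
  rw [← Dp_eq hP t z, ← Dp_eq hP 0 z, pt_zero] at hD
  have nx : 0 < 1 - ‖pt P t z‖ ^ 2 := by linarith [hD.1, hD.2.2.1]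
  refine hbig.trans ?_
  rw [mul_comm]
  refine mul_le_mul_of_nonneg_left ?_ (norm_nonneg _)
  refine le_mul_of_one_le_right (by positivity) ?_
  rw [← Real.mul_rpow (by linarith) (by positivity)]
  refine Real.one_le_rpow ?_ ha.le
  rw [mul_div_assoc', one_le_div nx]
  linarith [hD.2.2.2]

theorem seq_solP (μ : Measure E) [μ.IsAddHaarMeasure] {m : ℕ} (hm : 1 ≤ m)
    (hdim : Module.finrank ℂ E = m + 1) (N : ℕ) {δ a C A : ℝ} (hδ : 0 < δ) (ha : 0 < a)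
    (ha1 : a ≤ 1) (hC : 0 < C) (hA : 0 < A) : ∃ C' : ℝ, 0 < C' ∧ ∀ f : Fin N → E → ℂ,
      (∀ j, DifferentiableOn ℂ (f j) (ball 0 1)) →
      (∀ z ∈ ball (0 : E) 1, δ ≤ ∑ j, ‖f j z‖ ^ 2 ∧ ∑ j, ‖f j z‖ ^ 2 ≤ 1) →
      ∀ P : E →L[ℂ] E, Prj P → ∀ g : Fin N → E → ℂ,
      (∀ j, DifferentiableOn ℂ (fun z => g j (P z)) (ball 0 1)) →
      (∀ z ∈ ball (0 : E) 1, ∑ j, f j (P z) * g j (P z) = 1 ∧ ∑ j, ‖g j (P z)‖ ^ 2 ≤ A ^ 2) →
      ∀ (M : ℕ → Set E) (V : ℕ → E → ℂ), (∀ k, M k ⊆ ball 0 1) → (∀ k, Wt a C (M k) (V k)) →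
      ∃ h : Fin N → E → ℂ, (∀ j, DifferentiableOn ℂ (h j) (ball 0 1)) ∧
        ∀ z ∈ ball (0 : E) 1, ∑ j, f j z * h j z = 1 ∧ (∀ j, h j (P z) = g j (P z)) ∧
          (∀ w ∈ ball (0 : E) 1, P w = w → ∀ j, ‖h j z‖ ≤ C' * (1 + Real.log (chh z w))) ∧
          ∀ k, ∀ w ∈ M k, ∀ j,
            ‖h j z‖ ≤ C' * (1 + Real.log (k + 1) + Real.log (chh z w)) := by
  obtain ⟨Λ, hΛ, hOm⟩ := TE.Om_le (E := E) μ hm hdim (M := m + 2) le_rfl N
  obtain ⟨C₂, hC₂, hext⟩ := extendV (E := E) μ hm hdim N (δ := δ) (A := A) hδ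
    hA 1 (C := 4 * (2 + C)) (by positivity)
  obtain ⟨W, hW⟩ : ∃ W : ℝ, W = ∑' k, wc k := ⟨_, rfl⟩
  have hW0 : 0 ≤ W := by rw [hW]; exact tsum_nonneg fun k => (wc_pos k).le
  obtain ⟨K, hK⟩ : ∃ K : ℝ, K = 2 * (1 + C) + 2 * C * (1 + W * C) := ⟨_, rfl⟩
  have hK0 : 0 < K := by rw [hK]; positivity
  have hKC : 2 * (1 + C) ≤ K := by
    rw [hK]
    have : 0 ≤ 2 * C * (1 + W * C) := by positivity
    linarith
  refine ⟨C₂ * (1 + Λ + Λ * K * (2 / a * 2 + 4 / 3)), by positivity,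
    fun f hf hb P hP g hg hg1 M V hM hV => ?_⟩
  have hfM : ∀ j, ∀ z ∈ ball (0 : E) 1, ‖f j z‖ ≤ 1 := by
    intro j z hz
    have e1 : ‖f j z‖ ^ 2 ≤ 1 :=
      (Finset.single_le_sum (f := fun j => ‖f j z‖ ^ 2) (fun _ _ => sq_nonneg _)
        (Finset.mem_univ j)).trans (hb z hz).2
    have e2 : 0 ≤ ‖f j z‖ := norm_nonneg _
    nlinarith
  have hFpos : ∀ z ∈ ball (0 : E) 1, 1 / 2 ≤ ‖FS V z‖ := by
    intro z hz
    have h1 := (fs_norm hV hz).1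
    have h2 := ss_nonneg V z
    linarith
  have hF0 : ∀ z ∈ ball (0 : E) 1, FS V z ≠ 0 := by
    intro z hz h
    have := hFpos z hz
    rw [h, norm_zero] at this
    linarith
  obtain ⟨h, hh1, hh2⟩ := hext f hf hb P hP g hg hg1 (fun z => (FS V z)⁻¹)
    ((fs_holo ha hC hV).inv hF0) (fun z hz => inv_ne_zero (hF0 z hz))
    ⟨0, 2, fun z hz => by
      rw [norm_inv, pow_zero, mul_one]
      exact inv_le_of_inv_le₀ two_pos (by rw [← one_div]; exact hFpos z hz)⟩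
    (fun z => Λ * ‖FS V z‖) (fs_vw ha hC hΛ hV) (fun y hy => by
      rw [norm_inv, mul_assoc, mul_inv_cancel₀ (norm_ne_zero_iff.2 (hF0 y hy)), mul_one]
      exact hOm f hf hfM y hy)
  refine ⟨h, hh1, fun z hz => ?_⟩
  obtain ⟨g1, g2, g3⟩ := hh2 z hz
  have hz1 := mem_ball_zero_iff.1 hz
  have hFz := norm_ne_zero_iff.2 (hF0 z hz)
  have hGI : GI (fun y => Λ * ‖FS V y‖) P z = Λ * GI (fun y => ‖FS V y‖) P z := by
    unfold GI
    rw [← integral_const_mul]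
    refine integral_congr_ae (Eventually.of_forall fun t => ?_)
    simp only
    ring
  have e1 : ‖(FS V z)⁻¹‖ * (Λ * ‖FS V z‖ + GI (fun y => Λ * ‖FS V y‖) P z) =
      Λ + Λ * (‖FS V z‖⁻¹ * GI (fun y => ‖FS V y‖) P z) := by
    rw [hGI, norm_inv]
    field_simp
  -- from the bound of the path integral to the bound of the solution
  have hfin : ∀ A X : ℝ, Real.log (1 + A) ≤ 2 * X → 1 ≤ X →
      ‖FS V z‖⁻¹ * GI (fun y => ‖FS V y‖) P z ≤ K * (2 / a * Real.log (1 + A) + 4 / 3) →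
      ∀ j, ‖h j z‖ ≤ C₂ * (1 + Λ + Λ * K * (2 / a * 2 + 4 / 3)) * X := by
    intro A X hX hX1 hpath j
    refine (g3 j).trans ?_
    rw [e1]
    have e2 : K * (2 / a * Real.log (1 + A) + 4 / 3) ≤ K * ((2 / a * 2 + 4 / 3) * X) := by
      refine mul_le_mul_of_nonneg_left ?_ hK0.le
      have : 2 / a * Real.log (1 + A) ≤ 2 / a * (2 * X) :=
        mul_le_mul_of_nonneg_left hX (by positivity)
      nlinarith
    have e3 : Λ * (‖FS V z‖⁻¹ * GI (fun y => ‖FS V y‖) P z) ≤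
        Λ * (K * ((2 / a * 2 + 4 / 3) * X)) := mul_le_mul_of_nonneg_left (hpath.trans e2) hΛ.le
    rw [mul_assoc C₂]
    refine mul_le_mul_of_nonneg_left ?_ hC₂.le
    have e4 : 0 ≤ Λ * K * (2 / a * 2 + 4 / 3) := by positivity
    nlinarith
  have hl2 : Real.log 2 ≤ 1 := by
    have := Real.log_le_sub_one_of_pos (x := 2) two_pos
    linarith
  refine ⟨g1, g2, fun w hw hPw => ?_, fun k w hw => ?_⟩
  · have hw1 := mem_ball_zero_iff.1 hw
    have hch := chh_one hz1 hw1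
    have l2 : 0 ≤ Real.log (chh z w) := Real.log_nonneg hch
    have hca : 1 ≤ chh z w ^ a := Real.one_le_rpow hch ha.le
    have hl : Real.log (1 + chh z w ^ a) ≤ 2 * (1 + Real.log (chh z w)) := by
      calc Real.log (1 + chh z w ^ a)
          ≤ Real.log (2 * chh z w ^ a) := Real.log_le_log (by positivity) (by linarith)
        _ = Real.log 2 + a * Real.log (chh z w) := by
            rw [Real.log_mul two_ne_zero (by positivity), Real.log_rpow (by linarith)]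
        _ ≤ _ := by
            have l3 : a * Real.log (chh z w) ≤ 1 * Real.log (chh z w) :=
              mul_le_mul_of_nonneg_right ha1 l2
            linarith
    refine hfin _ _ hl (by linarith) ((path_slice ha hC hV hP hz hw hPw).trans ?_)
    refine mul_le_mul_of_nonneg_right hKC ?_
    have : 0 ≤ Real.log (1 + chh z w ^ a) := Real.log_nonneg (by linarith)
    positivity
  · have hw1 := mem_ball_zero_iff.1 (hM k hw)
    have hch := chh_one hz1 hw1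
    have hwk := wc_pos k
    have hk1 : (0 : ℝ) < (k : ℝ) + 1 := by positivity
    have hca : 1 ≤ chh z w ^ a := Real.one_le_rpow hch ha.le
    have hk0 : (0 : ℝ) ≤ k := Nat.cast_nonneg k
    have hL1 : 0 ≤ Real.log ((k : ℝ) + 1) := Real.log_nonneg (by linarith)
    have hL2 : 0 ≤ Real.log (chh z w) := Real.log_nonneg hch
    have hlogA : Real.log (1 + chh z w ^ a / wc k) ≤
        2 * (1 + Real.log (k + 1) + Real.log (chh z w)) := by
      have hA1 : chh z w ^ a / wc k = chh z w ^ a * ((k : ℝ) + 1) ^ 2 := by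
        unfold wc
        field_simp
      have hA2 : 1 ≤ chh z w ^ a * ((k : ℝ) + 1) ^ 2 := by
        have : (1 : ℝ) ≤ ((k : ℝ) + 1) ^ 2 := one_le_pow₀ (by linarith)
        nlinarith
      rw [hA1]
      calc Real.log (1 + chh z w ^ a * ((k : ℝ) + 1) ^ 2)
          ≤ Real.log (2 * (chh z w ^ a * ((k : ℝ) + 1) ^ 2)) :=
            Real.log_le_log (by positivity) (by linarith)
        _ = Real.log 2 + (a * Real.log (chh z w) + 2 * Real.log ((k : ℝ) + 1)) := by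
            rw [Real.log_mul two_ne_zero (by positivity),
              Real.log_mul (by positivity) (by positivity), Real.log_rpow (by linarith),
              Real.log_pow]
            push_cast
            ring
        _ ≤ _ := by
            have l3 : a * Real.log (chh z w) ≤ 1 * Real.log (chh z w) :=
              mul_le_mul_of_nonneg_right ha1 hL2
            linarith
    have hpath := path_thin ha hC hV hM hP hz hw
    rw [← hW, ← hK] at hpath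
    exact hfin _ _ hlogA (by linarith) hpath

end Pool.Agent.MPca0fc2.TQ
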