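import Mathlib
import Pool.Agent.Lib.MP_ca0fc2_an.TQ.W7
import Pool.Agent.Lib.MP_ca0fc2_an.TQ.W8
import Pool.Agent.Lib.MP_ca0fc2_an.XC.SE
import Pool.Agent.Lib.MP_ca0fc2_an.CGInv

/-! One solution for a complex submanifold and a sequence of sets. -/

set_option autoImplicit false
set_option linter.unusedSectionVars false

open Metric Set MeasureTheory Filter Topology
open scoped InnerProductSpace ENNReal ContDiff

namespace Pool.Agent.MPca0fc2.TQ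

open Pool.Agent.MPca0fc2.TK
open Pool.Agent.MPca0fc2.TE
open Pool.Agent.Lib.MP_ca0fc2_an

section gen

variable {E : Type*} [NormedAddCommGroup E] [InnerProductSpace ℂ E] [FiniteDimensional ℂ E]
  [MeasurableSpace E] [BorelSpace E]

/-- the class of the sets of the sequence -/
def Cls (β C₀ : ℝ) (M : Set E) : Prop := ∃ φ ψ : E → E, IsBallAut φ ψ ∧
  ((∃ (k : ℕ) (e : Fin k → E), Orthonormal ℂ e ∧ M = φ '' rball e) ∨
    ∃ K : Set E, Hom β C₀ K ∧ K ⊆ sphere 0 1 ∧ M = φ '' rays K)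

theorem aut_comp {φ ψ φ' ψ' : E → E} (h : IsBallAut φ ψ) (h' : IsBallAut φ' ψ') :
    IsBallAut (φ ∘ φ') (ψ' ∘ ψ) where
  hol := h.hol.comp h'.hol fun z hz => h'.map z hz
  hol' := h'.hol'.comp h.hol' fun z hz => h.map' z hz
  map z hz := h.map _ (h'.map z hz)
  map' z hz := h'.map' _ (h.map' z hz)
  left z hz := by
    show ψ' (ψ (φ (φ' z))) = z
    rw [h.left _ (h'.map z hz), h'.left z hz]
  right z hz := by
    show φ (φ' (ψ' (ψ z))) = z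
    rw [h'.right _ (h.map' z hz), h.right z hz]

theorem aut_symm {φ ψ : E → E} (h : IsBallAut φ ψ) : IsBallAut ψ φ :=
  ⟨h.hol', h.hol, h.map', h.map, h.right, h.left⟩

theorem Cls.sub {β C₀ : ℝ} {M : Set E} (h : Cls β C₀ M) : M ⊆ ball 0 1 := by
  obtain ⟨φ, ψ, hφ, ⟨k, e, he, rfl⟩ | ⟨K, hK, hKs, rfl⟩⟩ := h
  · rintro _ ⟨x, hx, rfl⟩
    exact hφ.map x (rball_sub e hx)
  · rintro _ ⟨x, hx, rfl⟩
    exact hφ.map x (rays_sub hKs hx)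

theorem Cls.image {β C₀ : ℝ} {M : Set E} (h : Cls β C₀ M) {φ ψ : E → E} (hφ : IsBallAut φ ψ) :
    Cls β C₀ (φ '' M) := by
  obtain ⟨φ', ψ', hφ', ⟨k, e, he, rfl⟩ | ⟨K, hK, hKs, rfl⟩⟩ := h
  · exact ⟨φ ∘ φ', ψ' ∘ ψ, aut_comp hφ hφ', Or.inl ⟨k, e, he, by rw [image_comp]⟩⟩
  · exact ⟨φ ∘ φ', ψ' ∘ ψ, aut_comp hφ hφ', Or.inr ⟨K, hK, hKs, by rw [image_comp]⟩⟩

theorem chh_aut {φ ψ : E → E} (h : IsBallAut φ ψ) {z w : E} (hz : ‖z‖ < 1) (hw : ‖w‖ < 1) :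
    chh (φ z) (φ w) = chh z w := by
  have e : ∀ x y : E, chh x y = (Pool.Agent.MPca0fc2.PT.HH x y)⁻¹ := by
    intro x y
    unfold chh Pool.Agent.MPca0fc2.PT.HH
    rw [inv_div]
  rw [e, e, Pool.Agent.MPca0fc2.CG.HH_aut h hz hw]

/-- the growth theorem in general position -/
theorem seq_gen (hE : 2 ≤ Module.finrank ℂ E) (N : ℕ) {β C₀ δ A : ℝ} (hβ0 : 0 ≤ β) (hβ1 : β < 1)
    (hδ : 0 < δ) (hA : 0 < A) : ∃ C : ℝ, 0 < C ∧ ∀ f : Fin N → E → ℂ,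
      (∀ j, DifferentiableOn ℂ (f j) (ball 0 1)) →
      (∀ z ∈ ball (0 : E) 1, δ ≤ ∑ j, ‖f j z‖ ^ 2 ∧ ∑ j, ‖f j z‖ ^ 2 ≤ 1) →
      ∀ φ ψ : E → E, IsBallAut φ ψ → ∀ P : E →L[ℂ] E, Prj P → ∀ g : Fin N → E → ℂ,
      (∀ j, DifferentiableOn ℂ (fun z => g j (P z)) (ball 0 1)) →
      (∀ z ∈ ball (0 : E) 1, ∑ j, f j (φ (P z)) * g j (P z) = 1 ∧ ∑ j, ‖g j (P z)‖ ^ 2 ≤ A ^ 2) →
      ∀ M : ℕ → Set E, (∀ i, Cls β C₀ (M i)) →
      ∃ h : Fin N → E → ℂ, (∀ j, DifferentiableOn ℂ (h j) (ball 0 1)) ∧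
        (∀ z ∈ ball (0 : E) 1, ∑ j, f j z * h j z = 1) ∧
        (∀ v ∈ ball (0 : E) 1, P v = v → ∀ j, h j (φ v) = g j v) ∧
        ∀ z ∈ ball (0 : E) 1,
          (∀ v ∈ ball (0 : E) 1, P v = v → ∀ j, ‖h j z‖ ≤ C * (1 + Real.log (chh z (φ v)))) ∧
          ∀ i, ∀ w ∈ M i, ∀ j, ‖h j z‖ ≤ C * (1 + Real.log (i + 1) + Real.log (chh z w)) := by
  obtain ⟨a, C, ha, ha1, hC, g1, g2⟩ := fam_wt (E := E) (C₀ := C₀) hβ0 hβ1
  haveI : ProperSpace E := FiniteDimensional.proper ℂ E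
  let μ : Measure E := MeasureTheory.Measure.addHaar
  obtain ⟨C', hC', h1⟩ := seq_solP (E := E) μ (m := Module.finrank ℂ E - 1) (by omega) (by omega) N
    hδ ha ha1 hC hA
  refine ⟨C', hC', fun f hf hb φ ψ hφ P hP g hg hg1 M hM => ?_⟩
  have hV : ∀ i, ∃ V : E → ℂ, Wt a C (ψ '' M i) V := by
    intro i
    obtain ⟨φ', ψ', hφ', ⟨k, e, he, h⟩ | ⟨K, hK, hKs, h⟩⟩ := (hM i).image (aut_symm hφ)
    · rw [h]
      exact g1 φ' ψ' hφ' k e he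
    · rw [h]
      exact g2 φ' ψ' hφ' K hK hKs
  choose V hV using hV
  obtain ⟨H, hH, hH2⟩ := h1 (fun j z => f j (φ z)) (fun j => (hf j).comp hφ.hol fun z hz =>
    hφ.map z hz) (fun z hz => hb _ (hφ.map z hz)) P hP g hg hg1 (fun i => ψ '' M i) V
    (fun i => ((hM i).image (aut_symm hφ)).sub) hV
  have hch : ∀ z ∈ ball (0 : E) 1, ∀ v ∈ ball (0 : E) 1, chh (ψ z) v = chh z (φ v) := by
    intro z hz v hv
    rw [← chh_aut hφ (mem_ball_zero_iff.1 (hφ.map' z hz)) (mem_ball_zero_iff.1 hv),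
      hφ.right z hz]
  refine ⟨fun j z => H j (ψ z), fun j => (hH j).comp hφ.hol' fun z hz => hφ.map' z hz,
    fun z hz => ?_, fun v hv hPv j => ?_, fun z hz => ⟨fun v hv hPv j => ?_, fun i w hw j => ?_⟩⟩
  · have h2 := (hH2 _ (hφ.map' z hz)).1
    simp only [hφ.right z hz] at h2
    exact h2
  · show H j (ψ (φ v)) = g j v
    rw [hφ.left v hv]
    have h2 := (hH2 v hv).2.1 j
    rwa [hPv] at h2
  · have h2 := (hH2 _ (hφ.map' z hz)).2.2.1 v hv hPv j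
    rwa [hch z hz v hv] at h2
  · have h2 := (hH2 _ (hφ.map' z hz)).2.2.2 i (ψ w) ⟨w, hw, rfl⟩ j
    have hwb := (hM i).sub hw
    rwa [hch z hz (ψ w) (hφ.map' w hwb), hφ.right w hwb] at h2

end gen

/-- extension from complex submanifolds -/
theorem ext_seq {n : ℕ} (hn : 2 ≤ n) (N : ℕ) {β C₀ δ A : ℝ} (hβ0 : 0 ≤ β) (hβ1 : β < 1)
    (hδ : 0 < δ) (hA : 0 < A) : ∃ C : ℝ, 0 < C ∧
    ∀ f : Fin N → EuclideanSpace ℂ (Fin n) → ℂ,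
      (∀ j, DifferentiableOn ℂ (f j) (ball 0 1)) →
      (∀ z ∈ ball (0 : EuclideanSpace ℂ (Fin n)) 1,
        δ ≤ ∑ j, ‖f j z‖ ^ 2 ∧ ∑ j, ‖f j z‖ ^ 2 ≤ 1) →
      ∀ φ ψ : EuclideanSpace ℂ (Fin n) → EuclideanSpace ℂ (Fin n), IsBallAut φ ψ →
      ∀ (V : Submodule ℂ (EuclideanSpace ℂ (Fin n))) (g : Fin N → V → ℂ),
      (∀ j, DifferentiableOn ℂ (g j) (ball 0 1)) →
      (∀ v ∈ ball (0 : V) 1, ∑ j, f j (φ v) * g j v = 1 ∧ ∑ j, ‖g j v‖ ^ 2 ≤ A ^ 2) →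
      ∀ M : ℕ → Set (EuclideanSpace ℂ (Fin n)), (∀ i, Cls β C₀ (M i)) →
      ∃ h : Fin N → EuclideanSpace ℂ (Fin n) → ℂ,
        (∀ j, DifferentiableOn ℂ (h j) (ball 0 1)) ∧
        (∀ z ∈ ball (0 : EuclideanSpace ℂ (Fin n)) 1, ∑ j, f j z * h j z = 1) ∧
        (∀ v ∈ ball (0 : V) 1, ∀ j, h j (φ v) = g j v) ∧
        ∀ z ∈ ball (0 : EuclideanSpace ℂ (Fin n)) 1,
          (∀ v ∈ ball (0 : V) 1, ∀ j, ‖h j z‖ ≤ C * (1 + Real.log (chh z (φ v)))) ∧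
          ∀ i, ∀ w ∈ M i, ∀ j, ‖h j z‖ ≤ C * (1 + Real.log (i + 1) + Real.log (chh z w)) := by
  obtain ⟨C, hC, h1⟩ := seq_gen (E := EuclideanSpace ℂ (Fin n)) (C₀ := C₀) (δ := δ) (A := A)
    (by rw [finrank_euclideanSpace_fin]; exact hn) N hβ0 hβ1 hδ hA
  refine ⟨C, hC, fun f hf hb φ ψ hφ V g hg hgs M hM => ?_⟩
  have hmem : ∀ z ∈ ball (0 : EuclideanSpace ℂ (Fin n)) 1,
      V.orthogonalProjectionOnto z ∈ ball (0 : V) 1 := by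
    intro z hz
    rw [mem_ball_zero_iff] at hz ⊢
    exact (V.norm_orthogonalProjectionOnto_apply_le z).trans_lt hz
  obtain ⟨G, hG⟩ : ∃ G : Fin N → EuclideanSpace ℂ (Fin n) → ℂ, G = fun j z =>
      g j (V.orthogonalProjectionOnto z) := ⟨_, rfl⟩
  have hGP : ∀ j z, G j (V.starProjection z) = G j z := by
    intro j z
    rw [hG]
    simp only [Pool.Agent.MPca0fc2SE.orth_idem]
  obtain ⟨h, h2, h3, h4, h5⟩ := h1 f hf hb φ ψ hφ V.starProjection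
    (Pool.Agent.MPca0fc2SE.prj_star V) G (fun j => by
      simp only [hGP]
      rw [hG]
      exact (hg j).comp V.orthogonalProjectionOnto.differentiable.differentiableOn hmem) (fun z hz => by
      have h6 := hgs _ (hmem z hz)
      simp only [hGP]
      rw [hG, Submodule.starProjection_apply]
      exact h6) M hM
  have hv : ∀ v ∈ ball (0 : V) 1, (v : EuclideanSpace ℂ (Fin n)) ∈
      ball (0 : EuclideanSpace ℂ (Fin n)) 1 ∧ V.starProjection v = v := by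
    intro v hv
    rw [mem_ball_zero_iff] at hv ⊢
    exact ⟨hv, Submodule.starProjection_eq_self_iff.2 v.2⟩
  refine ⟨h, h2, h3, fun v hvb j => ?_, fun z hz => ⟨fun v hvb j => ?_, (h5 z hz).2⟩⟩
  · have h6 := h4 v (hv v hvb).1 (hv v hvb).2 j
    rw [h6, hG]
    show g j (V.orthogonalProjectionOnto v) = g j v
    rw [Submodule.orthogonalProjectionOnto_mem_subspace_eq_self]
  · exact (h5 z hz).1 v (hv v hvb).1 (hv v hvb).2 j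

/-- complex lines and points -/
theorem line_seq {n : ℕ} (hn : 2 ≤ n) (N : ℕ) {β C₀ δ : ℝ} (hβ0 : 0 ≤ β) (hβ1 : β < 1)
    (hδ : 0 < δ) : ∃ C : ℝ, 0 < C ∧
    ∀ f : Fin N → EuclideanSpace ℂ (Fin n) → ℂ,
      (∀ j, DifferentiableOn ℂ (f j) (ball 0 1)) →
      (∀ z ∈ ball (0 : EuclideanSpace ℂ (Fin n)) 1,
        δ ≤ ∑ j, ‖f j z‖ ^ 2 ∧ ∑ j, ‖f j z‖ ^ 2 ≤ 1) →
      ∀ φ ψ : EuclideanSpace ℂ (Fin n) → EuclideanSpace ℂ (Fin n), IsBallAut φ ψ →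
      ∀ V : Submodule ℂ (EuclideanSpace ℂ (Fin n)), Module.finrank ℂ V ≤ 1 →
      ∀ M : ℕ → Set (EuclideanSpace ℂ (Fin n)), (∀ i, Cls β C₀ (M i)) →
      ∃ h : Fin N → EuclideanSpace ℂ (Fin n) → ℂ,
        (∀ j, DifferentiableOn ℂ (h j) (ball 0 1)) ∧
        (∀ z ∈ ball (0 : EuclideanSpace ℂ (Fin n)) 1, ∑ j, f j z * h j z = 1) ∧
        ∀ z ∈ ball (0 : EuclideanSpace ℂ (Fin n)) 1,
          (∀ v ∈ ball (0 : V) 1, ∀ j, ‖h j z‖ ≤ C * (1 + Real.log (chh z (φ v)))) ∧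
          ∀ i, ∀ w ∈ M i, ∀ j, ‖h j z‖ ≤ C * (1 + Real.log (i + 1) + Real.log (chh z w)) := by
  obtain ⟨A, hA, h0⟩ := Pool.Agent.MPca0fc2SE.small_sol (n := n) (N := N) hδ
  obtain ⟨C, hC, h1⟩ := seq_gen (E := EuclideanSpace ℂ (Fin n)) (C₀ := C₀) (δ := δ) (A := A)
    (by rw [finrank_euclideanSpace_fin]; exact hn) N hβ0 hβ1 hδ hA
  refine ⟨C, hC, fun f hf hb φ ψ hφ V hV M hM => ?_⟩
  obtain ⟨g, g1, g2⟩ := h0 (fun j z => f j (φ z)) (fun j => (hf j).comp hφ.hol fun z hz =>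
    hφ.map z hz) (fun z hz => hb _ (hφ.map z hz)) V hV
  obtain ⟨h, h2, h3, -, h5⟩ := h1 f hf hb φ ψ hφ V.starProjection
    (Pool.Agent.MPca0fc2SE.prj_star V) g g1 g2 M hM
  refine ⟨h, h2, h3, fun z hz => ⟨fun v hvb j => ?_, (h5 z hz).2⟩⟩
  rw [mem_ball_zero_iff] at hvb
  exact (h5 z hz).1 v (mem_ball_zero_iff.2 hvb) (Submodule.starProjection_eq_self_iff.2 v.2) j

end Pool.Agent.MPca0fc2.TQ
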